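import Pool.Agent.H81.PC.Lx

/-!
# LEMMA X of PLAN C for truncated labels

`tlb F w q l P i0 z` is the label of the context `(w, q)` with the normal position to `P` digits
only (at the top `P = J`, for `P = q + w + l` it is `F.qlb w q l i0 z`).
-/

set_option autoImplicit false

namespace Pool.PC

open Finset Real
open Pool.Agent.H49.Ent Pool.Agent.H32.Dense Pool.STK Pool.KA Pool.KSAT Pool.K2S

variable {m J : ℕ}

/-- The position at the beginning of the window `g`: base coordinate to `a` digits, normal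
coordinates to `P` digits. -/
noncomputable def pps (F : Fam m J) (g a P : ℕ) (i0 : Fin m) (z : F.Ω → Fin m → ℝ) (ω : F.Ω)
    (j : Fin m) : ℤ :=
  if j = i0 then ⌊(2 : ℝ) ^ a * F.x1 g ω i0⌋
  else ⌊(2 : ℝ) ^ P * (F.x1 g ω j - z ω j * F.x1 g ω i0)⌋

/-- The truncated label of the context `(w, q)`. -/
noncomputable def tlb (F : Fam m J) (w q l P : ℕ) (i0 : Fin m) (z : F.Ω → Fin m → ℝ) (ω : F.Ω) :
    ((ℕ × (Fin m → ℝ)) × ((Fin m → ℤ) × (Fin m → ℤ))) × F.ζ :=
  (((F.T1 w ω, z ω), (pps F w (q + w) P i0 z ω, rvs F q l i0 z ω)), F.Z ω)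

theorem pps_full (F : Fam m J) (g a l : ℕ) (i0 : Fin m) (z : F.Ω → Fin m → ℝ) (ω : F.Ω) :
    pps F g a (a + l) i0 z ω = rws F g a l i0 z ω := by
  funext j
  show _ = ⌊(2 : ℝ) ^ a * pco l i0 (z ω) (F.x1 g ω) j⌋
  unfold pps pco
  split_ifs
  · rfl
  · congr 1
    rw [pow_add]
    ring

theorem tlb_full (F : Fam m J) (w q l : ℕ) (i0 : Fin m) (z : F.Ω → Fin m → ℝ) :
    tlb F w q l (q + w + l) i0 z = F.qlb w q l i0 z := by
  funext ω
  unfold tlb
  rw [pps_full]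
  rfl

/-- The components of the label. -/
theorem tlb_ext {F : Fam m J} {w q l P : ℕ} {i0 : Fin m} {z : F.Ω → Fin m → ℝ} {ω ω' : F.Ω}
    (h : tlb F w q l P i0 z ω = tlb F w q l P i0 z ω') :
    F.T1 w ω = F.T1 w ω' ∧ z ω = z ω' ∧ pps F w (q + w) P i0 z ω = pps F w (q + w) P i0 z ω' ∧
      rvs F q l i0 z ω = rvs F q l i0 z ω' ∧ F.Z ω = F.Z ω' := by
  have h1 := Prod.ext_iff.mp h
  have h2 := Prod.ext_iff.mp h1.1
  have h3 := Prod.ext_iff.mp h2.1
  have h4 := Prod.ext_iff.mp h2.2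
  exact ⟨h3.1, h3.2, h4.1, h4.2, h1.2⟩

theorem tlb_mk {F : Fam m J} {w q l P : ℕ} {i0 : Fin m} {z : F.Ω → Fin m → ℝ} {ω ω' : F.Ω}
    (h1 : F.T1 w ω = F.T1 w ω') (h2 : z ω = z ω')
    (h3 : pps F w (q + w) P i0 z ω = pps F w (q + w) P i0 z ω')
    (h4 : rvs F q l i0 z ω = rvs F q l i0 z ω') (h5 : F.Z ω = F.Z ω') :
    tlb F w q l P i0 z ω = tlb F w q l P i0 z ω' :=
  Prod.ext (Prod.ext (Prod.ext h1 h2) (Prod.ext h3 h4)) h5

/-- Lines with the same label, at the beginning of the label's window. -/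
theorem tlb_near {F : Fam m J} {w q l P : ℕ} {i0 : Fin m} {z : F.Ω → Fin m → ℝ} {ω ω' : F.Ω}
    (h : tlb F w q l P i0 z ω = tlb F w q l P i0 z ω') :
    |F.x1 w ω i0 - F.x1 w ω' i0| ≤ 1 / 2 ^ (q + w) ∧ |F.d ω i0 - F.d ω' i0| ≤ 1 / 2 ^ q ∧
    ∀ j, j ≠ i0 →
      |(F.x1 w ω j - F.x1 w ω' j) - z ω j * (F.x1 w ω i0 - F.x1 w ω' i0)| ≤ 1 / 2 ^ P ∧
      |(F.d ω j - F.d ω' j) - z ω j * (F.d ω i0 - F.d ω' i0)| ≤ 1 / 2 ^ (q + l) := by
  obtain ⟨h1, h2, h3, h4, -⟩ := tlb_ext h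
  have g0 := congrFun h3 i0
  unfold pps at g0
  rw [if_pos rfl, if_pos rfl] at g0
  have g1 := fl_same h4 i0
  unfold pco at g1
  rw [if_pos rfl, if_pos rfl] at g1
  refine ⟨floor_same g0, g1, fun j hj => ⟨?_, ?_⟩⟩
  · have g2 := congrFun h3 j
    unfold pps at g2
    rw [if_neg hj, if_neg hj, ← h2] at g2
    have g3 := floor_same g2
    have e : (F.x1 w ω j - F.x1 w ω' j) - z ω j * (F.x1 w ω i0 - F.x1 w ω' i0) =
      F.x1 w ω j - z ω j * F.x1 w ω i0 - (F.x1 w ω' j - z ω j * F.x1 w ω' i0) := by ring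
    rw [e]
    exact g3
  · have g2 := fl_same h4 j
    unfold pco at g2
    rw [if_neg hj, if_neg hj, ← h2, ← mul_sub, abs_mul,
      abs_of_pos (by positivity : (0 : ℝ) < 2 ^ l)] at g2
    have e : (F.d ω j - F.d ω' j) - z ω j * (F.d ω i0 - F.d ω' i0) =
      F.d ω j - z ω j * F.d ω i0 - (F.d ω' j - z ω j * F.d ω' i0) := by ring
    rw [e, pow_add, ← div_div, le_div_iff₀ (by positivity), mul_comm]
    exact g2

/-- The same, at the beginning of a longer window. -/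
theorem tlb_near_at {F : Fam m J} {w v q l P : ℕ} {i0 : Fin m} {z : F.Ω → Fin m → ℝ} (hwv : w ≤ v)
    (hv : v ≤ J) {ω ω' : F.Ω} (h : tlb F v q l P i0 z ω = tlb F v q l P i0 z ω') :
    |F.x1 w ω i0 - F.x1 w ω' i0| ≤ 2 / 2 ^ (q + w) ∧ |F.d ω i0 - F.d ω' i0| ≤ 1 / 2 ^ q ∧
    ∀ j, j ≠ i0 →
      |(F.x1 w ω j - F.x1 w ω' j) - z ω j * (F.x1 w ω i0 - F.x1 w ω' i0)| ≤
        1 / 2 ^ P + 1 / 2 ^ (q + w + l) ∧
      |(F.d ω j - F.d ω' j) - z ω j * (F.d ω i0 - F.d ω' i0)| ≤ 1 / 2 ^ (q + l) := by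
  obtain ⟨a1, a2, a3⟩ := tlb_near h
  obtain ⟨s, s0, s1, e, e'⟩ := shift_two F hwv hv (tlb_ext h).1
  refine ⟨?_, a2, fun j hj => ⟨?_, (a3 j hj).2⟩⟩
  · rw [congrFun e i0, congrFun e' i0] at a1
    have e1 : F.x1 w ω i0 - F.x1 w ω' i0 = (F.x1 w ω i0 + s * F.d ω i0 -
      (F.x1 w ω' i0 + s * F.d ω' i0)) - s * (F.d ω i0 - F.d ω' i0) := by ring
    rw [e1]
    refine (abs_sub _ _).trans ?_
    rw [abs_mul, abs_of_nonneg s0]
    have g5 : s * |F.d ω i0 - F.d ω' i0| ≤ 1 / 2 ^ w * (1 / 2 ^ q) :=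
      mul_le_mul s1 a2 (abs_nonneg _) (by positivity)
    have g6 : (1 : ℝ) / 2 ^ w * (1 / 2 ^ q) = 1 / 2 ^ (q + w) := by
      rw [pow_add 2 q w]
      field_simp
    have g7 : (1 : ℝ) / 2 ^ (q + v) ≤ 1 / 2 ^ (q + w) :=
      one_div_le_one_div_of_le (by positivity) (pow_le_pow_right₀ (by norm_num) (by omega))
    have g9 : 2 / (2 : ℝ) ^ (q + w) = 1 / 2 ^ (q + w) + 1 / 2 ^ (q + w) := by ring
    rw [g9]
    linarith only [a1, g5, g6, g7]
  · obtain ⟨b1, b2⟩ := a3 j hj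
    rw [congrFun e i0, congrFun e' i0, congrFun e j, congrFun e' j] at b1
    have e1 : F.x1 w ω j - F.x1 w ω' j - z ω j * (F.x1 w ω i0 - F.x1 w ω' i0) =
      (F.x1 w ω j + s * F.d ω j - (F.x1 w ω' j + s * F.d ω' j) -
        z ω j * (F.x1 w ω i0 + s * F.d ω i0 - (F.x1 w ω' i0 + s * F.d ω' i0))) -
      s * (F.d ω j - F.d ω' j - z ω j * (F.d ω i0 - F.d ω' i0)) := by ring
    rw [e1]
    refine (abs_sub _ _).trans ?_
    rw [abs_mul, abs_of_nonneg s0]
    have g5 : s * |F.d ω j - F.d ω' j - z ω j * (F.d ω i0 - F.d ω' i0)| ≤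
        1 / 2 ^ w * (1 / 2 ^ (q + l)) := mul_le_mul s1 b2 (abs_nonneg _) (by positivity)
    have g6 : (1 : ℝ) / 2 ^ w * (1 / 2 ^ (q + l)) = 1 / 2 ^ (q + w + l) := by
      rw [pow_add 2 (q + w) l, pow_add 2 q w, pow_add 2 q l]
      field_simp
    linarith only [b1, g5, g6]

/-- The frame is determined by the frame of a shorter window. -/
theorem frame_ent {F : Fam m J} {p : F.Ω → ℝ} (hp : IsLaw p) {C₀ : ℝ} (hC₀ : 0 ≤ C₀) {i0 : Fin m}
    {l : ℕ} {z z' : F.Ω → Fin m → ℝ} {T : Type} (W : F.Ω → T)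
    (hgr : ∀ ω j, ∃ k : ℤ, z ω j = k / 2 ^ l) (hz0 : ∀ ω, z ω i0 = 0)
    (hcl : ∀ ω, 0 < p ω → ∀ j, j ≠ i0 → |z ω j - z' ω j| ≤ C₀ / 2 ^ l)
    (hW : Det p W z') : CH p z W ≤ m * Real.log (2 * (2 * C₀) + 1) := by
  have hp0 := hp.nonneg
  have h1 : CH p z W ≤ CH p (fun ω j => ⌊(2 : ℝ) ^ l * z ω j⌋) W := by
    refine CH_mono_left hp0 fun ω ω' _ _ h => ?_
    have h2 := (Prod.ext_iff.mp h).1
    simp only at h2
    funext j
    obtain ⟨k, hk⟩ := hgr ω j
    obtain ⟨k', hk'⟩ := hgr ω' j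
    have h3 := congrFun h2 j
    simp only [hk, hk'] at h3
    rw [mul_div_cancel₀ _ (by positivity), mul_div_cancel₀ _ (by positivity), Int.floor_intCast,
      Int.floor_intCast] at h3
    rw [hk, hk', h3]
  refine h1.trans (CH_bd hp _ _ _ fun ω ω' hω hω' h j => ?_)
  have h2 : z' ω = z' ω' := hW ω ω' hω hω' h
  have h2l : (0 : ℝ) < 2 ^ l := by positivity
  obtain ⟨k, hk⟩ := hgr ω j
  obtain ⟨k', hk'⟩ := hgr ω' j
  simp only [hk, hk']
  rw [mul_div_cancel₀ _ (by positivity), mul_div_cancel₀ _ (by positivity), Int.floor_intCast,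
    Int.floor_intCast]
  by_cases hj : j = i0
  · have e1 := hz0 ω
    have e2 := hz0 ω'
    rw [← hj] at e1 e2
    rw [hk] at e1
    rw [hk'] at e2
    have e3 : (k : ℝ) = 0 := by
      rcases div_eq_zero_iff.1 e1 with h | h
      · exact h
      · exact absurd h h2l.ne'
    have e4 : (k' : ℝ) = 0 := by
      rcases div_eq_zero_iff.1 e2 with h | h
      · exact h
      · exact absurd h h2l.ne'
    push_cast
    rw [e3, e4, sub_zero, abs_zero]
    linarith only [hC₀]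
  · have g1 := hcl ω hω j hj
    have g2 := hcl ω' hω' j hj
    rw [← h2] at g2
    have g3 : |z ω j - z ω' j| ≤ 2 * C₀ / 2 ^ l := by
      have e1 : z ω j - z ω' j = (z ω j - z' ω j) - (z ω' j - z' ω j) := by ring
      rw [e1]
      refine (abs_sub _ _).trans ?_
      have e2 : 2 * C₀ / 2 ^ l = C₀ / 2 ^ l + C₀ / 2 ^ l := by ring
      rw [e2]
      exact add_le_add g1 g2
    rw [hk, hk', ← sub_div, abs_div, abs_of_pos h2l] at g3
    rw [div_le_div_iff_of_pos_right h2l] at g3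
    push_cast
    exact g3

/-- **Truncated labels are nested.** -/
theorem tnest {F : Fam m J} {p : F.Ω → ℝ} (hp : IsLaw p) {C₀ : ℝ} (hC₀ : 0 ≤ C₀) {i0 : Fin m}
    {w v q l l' P P' : ℕ} (hwv : w ≤ v) (hv : v ≤ J) (hl : l ≤ l') (hP : P ≤ q + w + l)
    (hPP : P ≤ P') {z z' : F.Ω → Fin m → ℝ}
    (hgr : ∀ ω j, ∃ k : ℤ, z ω j = k / 2 ^ l) (hz0 : ∀ ω, z ω i0 = 0)
    (hcl : ∀ ω, 0 < p ω → ∀ j, j ≠ i0 → |z ω j - z' ω j| ≤ C₀ / 2 ^ l) :
    CH p (tlb F w q l P i0 z) (tlb F v q l' P' i0 z') ≤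
      m * Real.log (2 * (2 * C₀) + 1) + 2 * (m * Real.log (2 * (2 * C₀ + 3) + 1)) := by
  have hp0 := hp.nonneg
  obtain ⟨b2, hb2⟩ : ∃ b, b = tlb F v q l' P' i0 z' := ⟨_, rfl⟩
  rw [← hb2]
  have r2 : CH p z b2 ≤ m * Real.log (2 * (2 * C₀) + 1) :=
    frame_ent hp hC₀ b2 hgr hz0 hcl fun ω ω' _ _ h => by
      rw [hb2] at h
      exact (tlb_ext h).2.1
  have h1 := CH_le_add hp0 (tlb F w q l P i0 z) z b2
  have h2 : CH p (tlb F w q l P i0 z) (fun ω => (z ω, b2 ω)) ≤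
      CH p (fun ω => (pps F w (q + w) P i0 z ω, rvs F q l i0 z ω)) (fun ω => (z ω, b2 ω)) := by
    refine CH_mono_left hp0 fun ω ω' _ _ h => ?_
    simp only [Prod.mk.injEq] at h
    obtain ⟨⟨h1, h2⟩, h3, h4⟩ := h
    rw [hb2] at h4
    obtain ⟨g1, g2, g3, g4, g5⟩ := tlb_ext h4
    exact tlb_mk (T1_of_le F hwv hv g1) h3 h1 h2 g5
  have h3 := CH_subadd hp0 (pps F w (q + w) P i0 z) (rvs F q l i0 z) (fun ω => (z ω, b2 ω))
  have pw : (0 : ℝ) < 2 ^ (q + w) := by positivity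
  have h4 : CH p (pps F w (q + w) P i0 z) (fun ω => (z ω, b2 ω)) ≤
      m * Real.log (2 * (2 * C₀ + 3) + 1) := by
    refine CH_bd hp _ _ _ fun ω ω' hω hω' h k => ?_
    simp only [Prod.mk.injEq] at h
    obtain ⟨h3, h4⟩ := h
    rw [hb2] at h4
    obtain ⟨g1, g2, g3⟩ := tlb_near_at hwv hv h4
    unfold pps
    by_cases hk : k = i0
    · rw [if_pos hk, if_pos hk]
      refine (floor_close g1).trans ?_
      linarith only [hC₀]
    · rw [if_neg hk, if_neg hk, ← h3]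
      have g4 := (g3 k hk).1
      have g5 := hcl ω hω k hk
      have g6 : |(F.x1 w ω k - z ω k * F.x1 w ω i0) - (F.x1 w ω' k - z ω k * F.x1 w ω' i0)| ≤
          (2 * C₀ + 2) / 2 ^ P := by
        have e : (F.x1 w ω k - z ω k * F.x1 w ω i0) - (F.x1 w ω' k - z ω k * F.x1 w ω' i0) =
          ((F.x1 w ω k - F.x1 w ω' k) - z' ω k * (F.x1 w ω i0 - F.x1 w ω' i0)) -
          (z ω k - z' ω k) * (F.x1 w ω i0 - F.x1 w ω' i0) := by ring
        rw [e]
        refine (abs_sub _ _).trans ?_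
        rw [abs_mul]
        have f1 : |z ω k - z' ω k| * |F.x1 w ω i0 - F.x1 w ω' i0| ≤
            C₀ / 2 ^ l * (2 / 2 ^ (q + w)) := mul_le_mul g5 g1 (abs_nonneg _) (by positivity)
        have f2 : C₀ / 2 ^ l * (2 / 2 ^ (q + w)) = 2 * C₀ / 2 ^ (q + w + l) := by
          rw [pow_add 2 (q + w) l]
          field_simp
        have f3 : 2 * C₀ / (2 : ℝ) ^ (q + w + l) ≤ 2 * C₀ / 2 ^ P :=
          div_le_div_of_nonneg_left (by positivity) (by positivity)
            (pow_le_pow_right₀ (by norm_num) hP)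
        have f4 : (1 : ℝ) / 2 ^ P' ≤ 1 / 2 ^ P :=
          one_div_le_one_div_of_le (by positivity) (pow_le_pow_right₀ (by norm_num) hPP)
        have f5 : (1 : ℝ) / 2 ^ (q + w + l') ≤ 1 / 2 ^ P :=
          one_div_le_one_div_of_le (by positivity) (pow_le_pow_right₀ (by norm_num) (by omega))
        have f6 : (2 * C₀ + 2) / (2 : ℝ) ^ P = 2 * C₀ / 2 ^ P + 1 / 2 ^ P + 1 / 2 ^ P := by ring
        rw [f6]
        linarith only [g4, f1, f2, f3, f4, f5]
      refine (floor_close g6).trans ?_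
      linarith only
  exact by
   have h5 : CH p (rvs F q l i0 z) (fun ω => (z ω, b2 ω)) ≤
       m * Real.log (2 * (2 * C₀ + 3) + 1) := by
     refine CH_bd hp _ _ _ fun ω ω' hω hω' h k => ?_
     simp only [Prod.mk.injEq] at h
     obtain ⟨h3, h4⟩ := h
     rw [hb2] at h4
     obtain ⟨-, g2, g3⟩ := tlb_near_at hwv hv h4
     unfold rvs
     have key : ∀ j, |pco l i0 (z ω) (F.d ω) j - pco l i0 (z ω') (F.d ω') j| ≤
         (2 * C₀ + 2) / 2 ^ q := by
       intro j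
       rw [← h3, ← pco_sub]
       unfold pco
       by_cases hj : j = i0
       · rw [if_pos hj]
         refine g2.trans (div_le_div_of_nonneg_right ?_ (by positivity))
         linarith only [hC₀]
       · rw [if_neg hj]
         have g4 := (g3 j hj).2
         have g5 := hcl ω hω j hj
         have e : (2 : ℝ) ^ l * (F.d ω j - F.d ω' j - z ω j * (F.d ω i0 - F.d ω' i0)) =
           2 ^ l * ((F.d ω j - F.d ω' j) - z' ω j * (F.d ω i0 - F.d ω' i0)) -
           2 ^ l * ((z ω j - z' ω j) * (F.d ω i0 - F.d ω' i0)) := by ring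
         rw [e]
         refine (abs_sub _ _).trans ?_
         rw [abs_mul, abs_mul, abs_mul, abs_of_pos (by positivity : (0 : ℝ) < 2 ^ l)]
         have f1 : |z ω j - z' ω j| * |F.d ω i0 - F.d ω' i0| ≤ C₀ / 2 ^ l * (1 / 2 ^ q) :=
           mul_le_mul g5 g2 (abs_nonneg _) (by positivity)
         have f2 := mul_le_mul_of_nonneg_left f1 (by positivity : (0 : ℝ) ≤ 2 ^ l)
         have f3 : (2 : ℝ) ^ l * (C₀ / 2 ^ l * (1 / 2 ^ q)) = C₀ / 2 ^ q := by
           field_simp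
         have f4 := mul_le_mul_of_nonneg_left g4 (by positivity : (0 : ℝ) ≤ 2 ^ l)
         have f5 : (2 : ℝ) ^ l * (1 / 2 ^ (q + l')) ≤ 1 / 2 ^ q := by
           have : (2 : ℝ) ^ l * (1 / 2 ^ (q + l')) ≤ 2 ^ l * (1 / 2 ^ (q + l)) :=
             mul_le_mul_of_nonneg_left (one_div_le_one_div_of_le (by positivity)
               (pow_le_pow_right₀ (by norm_num) (by omega))) (by positivity)
           refine this.trans (le_of_eq ?_)
           rw [pow_add 2 q l]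
           field_simp
         have f6 : (2 * C₀ + 2) / (2 : ℝ) ^ q = C₀ / 2 ^ q + 1 / 2 ^ q +
           (C₀ + 1) / 2 ^ q := by ring
         have f7 : 0 ≤ (C₀ + 1) / (2 : ℝ) ^ q := by positivity
         rw [f6]
         linarith only [f2, f3, f4, f5, f7]
     refine (fl_close key k).trans ?_
     linarith only
   linarith only [r2, h1, h2, h3, h4, h5]

/-- Two numbers which are close to the same multiples of `X`. -/
theorem cross2 {X Y a a' r : ℝ} {k : ℕ} (h1 : |Y - a * X| ≤ r) (h2 : |Y - a' * X| ≤ r)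
    (ha : 1 / 2 ^ k < |a - a'|) : |X| ≤ 2 * r * 2 ^ k := by
  have pk : (0 : ℝ) < 2 ^ k := by positivity
  have e1 : (a - a') * X = (Y - a' * X) - (Y - a * X) := by ring
  have h3 : |a - a'| * |X| ≤ 2 * r := by
    rw [← abs_mul, e1]
    refine (abs_sub _ _).trans ?_
    linarith only [h1, h2]
  have h5 : (1 : ℝ) / 2 ^ k * |X| ≤ 2 * r :=
    (mul_le_mul_of_nonneg_right ha.le (abs_nonneg _)).trans h3
  rw [div_mul_eq_mul_div, one_mul, div_le_iff₀ pk] at h5
  exact h5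

/-- **Two tubes of one window**, truncated labels. -/
theorem ttwo_tubes {F : Fam m J} {p : F.Ω → ℝ} (hp : IsLaw p) {i0 : Fin m}
    {w v q l l' P P' x δ : ℕ} (hwv : w ≤ v) (hv : v ≤ J) (h1 : l + x + δ ≤ l')
    (h2 : q + w + (l + x) + δ ≤ P') {z z' : F.Ω → Fin m → ℝ} {p₁ : ℝ}
    (hp1 : Pe (dbl p (slam F w)) (fun u => ∀ j, j ≠ i0 →
      |z' u.1 j - z' u.2 j| ≤ 1 / 2 ^ (l + x)) ≤ p₁) :
    CH (dbl p (slam F w)) (fun u => lin F w (q + w + δ) (q + δ) i0 u.1)
      (fun u => (tlb F v q l' P' i0 z' u.1, (tlb F v q l' P' i0 z' u.2, (F.T1 v u.1, (F.T1 v u.2,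
        tlb F w q l P i0 z u.1))))) ≤
      Real.log 2 + 2 * (Real.log 11 + p₁ * (δ * Real.log 2 + Real.log 5)) := by
  have hp0 := hp.nonneg
  obtain ⟨Q, hQ⟩ : ∃ Q, Q = dbl p (slam F w) := ⟨_, rfl⟩
  rw [← hQ] at hp1 ⊢
  have mf : Marg Q p (fun u => u.1) := by rw [hQ]; exact dbl_fst hp0
  have hQ0 : ∀ u, 0 ≤ Q u := by rw [hQ]; exact dbl_nonneg hp0
  have hQl : IsLaw Q := ⟨hQ0, by rw [mf.sum]; exact hp.sum_one⟩
  have heq : ∀ u, 0 < Q u → slam F w u.1 = slam F w u.2 := by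
    intro u hu
    rw [hQ] at hu
    exact dbl_eq hp0 hu
  have pδ : (1 : ℝ) ≤ 2 ^ δ := one_le_pow₀ (by norm_num)
  have key := CH_good hQl (fun u => lin F w (q + w + δ) (q + δ) i0 u.1)
    (fun u => (tlb F v q l' P' i0 z' u.1, (tlb F v q l' P' i0 z' u.2, (F.T1 v u.1, (F.T1 v u.2,
        tlb F w q l P i0 z u.1)))))
    (fun u => ∀ j, j ≠ i0 → |z' u.1 j - z' u.2 j| ≤ 1 / 2 ^ (l + x)) 5 (2 ^ δ + 1) p₁
    (by norm_num) (by positivity) hp1 ?_ ?_
  · refine key.trans ?_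
    have e1 : (2 : ℝ) * 5 + 1 = 11 := by norm_num
    rw [e1]
    have h1 : Real.log (2 * (2 ^ δ + 1) + 1) ≤ δ * Real.log 2 + Real.log 5 := by
      have h2 : (2 : ℝ) * (2 ^ δ + 1) + 1 ≤ 2 ^ δ * 5 := by linarith only [pδ]
      refine (Real.log_le_log (by positivity) h2).trans ?_
      rw [Real.log_mul (by positivity) (by norm_num), Real.log_pow]
    have hp10 : 0 ≤ p₁ := (Pe_nonneg hQl _).trans hp1
    have h5 := mul_le_mul_of_nonneg_left h1 hp10
    push_cast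
    linarith only [h5]
  · -- the frames differ
    intro u u' hu hu' h hb _ k
    simp only [Prod.mk.injEq] at h
    obtain ⟨k1, k2, -⟩ := h
    push Not at hb
    obtain ⟨j, hj, hjz⟩ := hb
    have hs := heq u hu
    have hs' := heq u' hu'
    unfold slam at hs hs'
    simp only [Prod.mk.injEq] at hs hs'
    have eu : F.u u.1 = F.u u.2 := (Prod.ext_iff.mp hs.1).1
    have ed : F.d u.1 = F.d u.2 := (Prod.ext_iff.mp hs.1).2
    have eu' : F.u u'.1 = F.u u'.2 := (Prod.ext_iff.mp hs'.1).1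
    have ed' : F.d u'.1 = F.d u'.2 := (Prod.ext_iff.mp hs'.1).2
    have ex : F.x1 w u.2 = F.x1 w u.1 := by
      funext i
      unfold Fam.x1
      rw [eu, ed, hs.2.2]
    have ex' : F.x1 w u'.2 = F.x1 w u'.1 := by
      funext i
      unfold Fam.x1
      rw [eu', ed', hs'.2.2]
    obtain ⟨a1, a2⟩ := (tlb_near_at hwv hv k1).2.2 j hj
    obtain ⟨b1, b2⟩ := (tlb_near_at hwv hv k2).2.2 j hj
    rw [ex, ex'] at b1
    rw [← ed, ← ed'] at b2
    have c1 := cross2 a1 b1 hjz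
    have c2 := cross2 a2 b2 hjz
    have f1 : ∀ A : ℕ, q + w + (l + x) + δ ≤ A → (2 : ℝ) * (1 / 2 ^ A) * 2 ^ (l + x) ≤
        2 / 2 ^ (q + w + δ) := by
      intro A hA
      have g1 : (1 : ℝ) / 2 ^ A ≤ 1 / 2 ^ (q + w + (l + x) + δ) :=
        one_div_le_one_div_of_le (by positivity) (pow_le_pow_right₀ (by norm_num) hA)
      have g2 : (2 : ℝ) * (1 / 2 ^ (q + w + (l + x) + δ)) * 2 ^ (l + x) = 2 / 2 ^ (q + w + δ) := by
        have e1 : (2 : ℝ) ^ (q + w + (l + x) + δ) = 2 ^ (q + w + δ) * 2 ^ (l + x) := by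
          rw [← pow_add]
          congr 1
          omega
        rw [e1]
        field_simp
      rw [← g2]
      have g3 : (0 : ℝ) ≤ 2 ^ (l + x) := by positivity
      nlinarith only [g1, g3]
    have d1 : |F.x1 w u.1 i0 - F.x1 w u'.1 i0| ≤ 4 / 2 ^ (q + w + δ) := by
      refine c1.trans ?_
      have e1 := f1 P' h2
      have e2 := f1 (q + w + l') (by omega)
      have e3 : (2 : ℝ) * (1 / 2 ^ P' + 1 / 2 ^ (q + w + l')) * 2 ^ (l + x) =
        2 * (1 / 2 ^ P') * 2 ^ (l + x) + 2 * (1 / 2 ^ (q + w + l')) * 2 ^ (l + x) := by ring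
      have e4 : (4 : ℝ) / 2 ^ (q + w + δ) = 2 / 2 ^ (q + w + δ) + 2 / 2 ^ (q + w + δ) := by ring
      rw [e3, e4]
      linarith only [e1, e2]
    have d2 : |F.d u.1 i0 - F.d u'.1 i0| ≤ 4 / 2 ^ (q + δ) := by
      refine c2.trans ?_
      have g1 : (1 : ℝ) / 2 ^ (q + l') ≤ 1 / 2 ^ (q + (l + x) + δ) :=
        one_div_le_one_div_of_le (by positivity) (pow_le_pow_right₀ (by norm_num) (by omega))
      have g2 : (2 : ℝ) * (1 / 2 ^ (q + (l + x) + δ)) * 2 ^ (l + x) = 2 / 2 ^ (q + δ) := by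
        have e1 : (2 : ℝ) ^ (q + (l + x) + δ) = 2 ^ (q + δ) * 2 ^ (l + x) := by
          rw [← pow_add]
          congr 1
          omega
        rw [e1]
        field_simp
      have g3 : (0 : ℝ) ≤ 2 ^ (l + x) := by positivity
      have g4 : (2 : ℝ) * (1 / 2 ^ (q + l')) * 2 ^ (l + x) ≤ 2 / 2 ^ (q + δ) := by
        rw [← g2]
        nlinarith only [g1, g3]
      refine g4.trans (div_le_div_of_nonneg_right (by norm_num) (by positivity))
    have f1 := floor_close d1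
    have f2 := floor_close d2
    fin_cases k
    · refine f1.trans ?_
      norm_num
    · refine f2.trans ?_
      norm_num
  · -- the crude bound
    intro u u' hu hu' h k
    simp only [Prod.mk.injEq] at h
    obtain ⟨-, -, -, -, h5⟩ := h
    obtain ⟨k3, k4, -⟩ := tlb_near h5
    have d1 : |F.x1 w u.1 i0 - F.x1 w u'.1 i0| ≤ 2 ^ δ / 2 ^ (q + w + δ) := by
      refine k3.trans (le_of_eq ?_)
      rw [pow_add 2 (q + w) δ]
      field_simp
    have d2 : |F.d u.1 i0 - F.d u'.1 i0| ≤ 2 ^ δ / 2 ^ (q + δ) := by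
      refine k4.trans (le_of_eq ?_)
      rw [pow_add 2 q δ]
      field_simp
    have f1 := floor_close d1
    have f2 := floor_close d2
    fin_cases k
    · exact f1
    · exact f2

/-- **LEMMA X**, one family, truncated labels. -/
theorem lx_top (m : ℕ) (C₀ : ℝ) (hC₀ : 0 ≤ C₀) : ∃ C : ℝ, 0 ≤ C ∧ ∀ (J : ℕ) (F : Fam m J)
    (i0 : Fin m) (w y q X n l l' P P' x δ : ℕ) (z z' : F.Ω → Fin m → ℝ) (p₁ : ℝ),
    w + y + n * X ≤ J → y + n * X ≤ δ → l + x + δ ≤ l' → q + w + (l + x) + δ ≤ P' →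
    P ≤ q + w + l → P ≤ P' →
    (∀ ω j, ∃ k : ℤ, z ω j = k / 2 ^ l) → (∀ ω, z ω i0 = 0) → Det F.p (slam F w) z →
    (∀ ω, 0 < F.p ω → ∀ j, j ≠ i0 → |z ω j - z' ω j| ≤ C₀ / 2 ^ l) →
    Pe (dbl F.p (slam F w)) (fun u => ∀ j, j ≠ i0 →
      |z' u.1 j - z' u.2 j| ≤ 1 / 2 ^ (l + x)) ≤ p₁ →
    nfo F w (tlb F w q l P i0 z) +
      ∑ i ∈ Finset.range n, CH F.p (bps F (w + y + (i + 1) * X) (q + (w + y + (i + 1) * X)) i0)
        (fun ω => (F.T1 (w + y + (i + 1) * X) ω,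
          cxt F q i0 (tlb F (w + y) q l' P' i0 z') (tlb F w q l P i0 z) (w + y + i * X) ω)) ≤
      nfo F (w + y) (tlb F (w + y) q l' P' i0 z') + 2 * (y * Real.log 2) +
        2 * (p₁ * (δ * Real.log 2)) + C * (1 + p₁ + n) := by
  have hc0 : 0 ≤ Real.log 2 := Real.log_nonneg (by norm_num)
  have hc1 : 0 ≤ Real.log (2 * (2 * C₀) + 1) := Real.log_nonneg (by linarith only [hC₀])
  have hc2 : 0 ≤ Real.log (2 * (2 * C₀ + 3) + 1) := Real.log_nonneg (by linarith only [hC₀])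
  have hc3 : 0 ≤ Real.log 11 := Real.log_nonneg (by norm_num)
  have hc4 : 0 ≤ Real.log 5 := Real.log_nonneg (by norm_num)
  have hc5 : 0 ≤ Real.log 7 := Real.log_nonneg (by norm_num)
  obtain ⟨C, hC⟩ : ∃ C : ℝ, C = (m * Real.log (2 * (2 * C₀) + 1) +
    2 * (m * Real.log (2 * (2 * C₀ + 3) + 1))) + Real.log 2 + 2 * Real.log 11 +
    2 * Real.log 5 + 2 * Real.log 7 := ⟨_, rfl⟩
  have hm : (0 : ℝ) ≤ m := Nat.cast_nonneg m
  have hC0 : 0 ≤ C := by rw [hC]; positivity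
  refine ⟨C, hC0, ?_⟩
  intro J F i0 w y q X n l l' P P' x δ z z' p₁ hnJ hnδ hlx hPx hP hPP hgr hz0 hzd hcl hp1
  have hp := F.isLaw
  have hp0 := hp.nonneg
  have hyJ : w + y ≤ J := by omega
  have hll : l ≤ l' := by omega
  obtain ⟨b, hb⟩ : ∃ b, b = tlb F w q l P i0 z := ⟨_, rfl⟩
  obtain ⟨B, hB⟩ : ∃ B, B = tlb F (w + y) q l' P' i0 z' := ⟨_, rfl⟩
  obtain ⟨L, hL⟩ : ∃ L, L = lin F w (q + w + δ) (q + δ) i0 := ⟨_, rfl⟩
  -- the contexts
  have hbd : Det F.p (slam F w) b := by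
    intro ω ω' hω hω' h
    have hz := hzd ω ω' hω hω' h
    unfold slam at h
    simp only [Prod.mk.injEq] at h
    obtain ⟨h1, h2, h3⟩ := h
    have hu : F.u ω = F.u ω' := (Prod.ext_iff.mp h1).1
    have hd : F.d ω = F.d ω' := (Prod.ext_iff.mp h1).2
    have hx : F.x1 w ω = F.x1 w ω' := by
      funext i
      unfold Fam.x1
      rw [hu, hd, h3]
    rw [hb]
    refine tlb_mk h3 hz ?_ ?_ h2
    · funext j
      unfold pps
      rw [hz, hx]
    · unfold rvs
      rw [hz, hd]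
  exact by
   have k1 := nfo_step F (w := w) (v := w + y) b B hbd
     (fun ω ω' _ _ h => by
       rw [hb] at h
       exact (tlb_ext h).2.2.2.2) (fun ω ω' _ _ h => by
       rw [hB] at h
       exact (tlb_ext h).1)
   have k2 : CH F.p b B ≤ m * Real.log (2 * (2 * C₀) + 1) +
       2 * (m * Real.log (2 * (2 * C₀ + 3) + 1)) := by
     rw [hb, hB]
     exact tnest hp hC₀ (Nat.le_add_right w y) hyJ hll hP hPP hgr hz0 hcl
   have k3 := ttwo_tubes (F := F) hp (i0 := i0) (P := P) (z := z) (Nat.le_add_right w y) hyJ hlx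
     hPx hp1
   rw [← hL, ← hb, ← hB] at k3
   have k4 := two_planks hp0 (slam F w) b B (F.T1 (w + y)) L hbd k3
   have k5 := CH_T1w F (Nat.le_add_right w y) hyJ b (fun ω ω' _ _ h => by
     rw [hb] at h
     exact (tlb_ext h).1)
   -- the rows
   obtain ⟨v, hv⟩ : ∃ v : ℕ → ℕ, v = fun i => w + y + i * X := ⟨_, rfl⟩
   have vle : ∀ i, i ≤ n → v i ≤ J ∧ v i ≤ w + δ := by
     intro i hi
     have h1 : i * X ≤ n * X := Nat.mul_le_mul_right X hi
     rw [hv]
     constructor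
     · show w + y + i * X ≤ J
       omega
     · show w + y + i * X ≤ w + δ
       omega
   have vs : ∀ i, v i ≤ v (i + 1) := by
     intro i
     rw [hv]
     show w + y + i * X ≤ w + y + (i + 1) * X
     rw [Nat.add_mul]
     omega
   exact by
    have vw : ∀ i, w ≤ v i := by
      intro i
      rw [hv]
      show w ≤ w + y + i * X
      omega
    have k6 := pay hp0 n L (fun i => cxt F q i0 B b (v i)) (fun i => F.T1 (v (i + 1)))
      (fun i => bps F (v (i + 1)) (q + v (i + 1)) i0) (e := Real.log 7) (e' := Real.log 7) ?_ ?_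
    · have k7 : CH F.p L (cxt F q i0 B b (v 0)) ≤
          CH F.p L (fun ω => (B ω, (F.T1 (w + y) ω, b ω))) := by
        refine CH_mono_cond hp0 fun ω ω' _ _ h => ?_
        unfold cxt at h
        simp only [Prod.mk.injEq] at h ⊢
        have h2 := h.1.1
        rw [hB] at h2
        exact ⟨h.1.1, (tlb_ext h2).1, h.1.2⟩
      have k8 := CH_nonneg hp0 L (cxt F q i0 B b (v n))
      have hp10 : 0 ≤ p₁ := by
        refine le_trans ?_ hp1
        have mf : Marg (dbl F.p (slam F w)) F.p (fun u => u.1) := dbl_fst hp0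
        exact Pe_nonneg ⟨dbl_nonneg hp0, by rw [mf.sum]; exact hp.sum_one⟩ _
      have hn0 : (0 : ℝ) ≤ n := Nat.cast_nonneg n
      have e1 : C * (1 + p₁ + n) = C + p₁ * C + n * C := by ring
      have hpos : 0 ≤ (m : ℝ) * Real.log (2 * (2 * C₀) + 1) + 2 * (m * Real.log (2 *
          (2 * C₀ + 3) + 1)) := by positivity
      have e2 : p₁ * (2 * Real.log 5) ≤ p₁ * C := by
        refine mul_le_mul_of_nonneg_left ?_ hp10
        rw [hC]
        linarith only [hc0, hc3, hc5, hpos]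
      have e3 : (n : ℝ) * (Real.log 7 + Real.log 7) ≤ n * C := by
        refine mul_le_mul_of_nonneg_left ?_ hn0
        rw [hC]
        linarith only [hc0, hc3, hc4, hpos]
      have e4 : (((w + y : ℕ) : ℝ) - w) * Real.log 2 = y * Real.log 2 := by
        push_cast
        ring
      rw [e4] at k5
      have e5 : 2 * (Real.log 11 + p₁ * (δ * Real.log 2 + Real.log 5)) =
        2 * Real.log 11 + 2 * (p₁ * (δ * Real.log 2)) + p₁ * (2 * Real.log 5) := by ring
      rw [e5] at k4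
      rw [hv] at k6 k7 k8
      rw [← hb, ← hB]
      rw [e1]
      simp only [Nat.zero_mul] at k6 k7 k8
      have e6 : m * Real.log (2 * (2 * C₀) + 1) +
        2 * (m * Real.log (2 * (2 * C₀ + 3) + 1)) + Real.log 2 + 2 * Real.log 11 ≤ C := by
        rw [hC]
        linarith only [hc4, hc5]
      linarith only [hc4, hc5, hC, k1, k2, k4, k5, k8, e2, e3, k6, k7]
    · -- the next context determines the row and the context
      intro i hi
      have h1 : CH F.p (fun ω => (bps F (v (i + 1)) (q + v (i + 1)) i0 ω,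
          (F.T1 (v (i + 1)) ω, cxt F q i0 B b (v i) ω))) (cxt F q i0 B b (v (i + 1))) ≤
          CH F.p (bps F (v i) (q + v i) i0) (cxt F q i0 B b (v (i + 1))) := by
        refine CH_mono_left hp0 fun ω ω' _ _ h => ?_
        unfold cxt at h ⊢
        simp only [Prod.mk.injEq] at h ⊢
        obtain ⟨h1, ⟨h2, h3⟩, h4, h5⟩ := h
        exact ⟨h5, h4, ⟨h2, h3⟩, T1_of_le F (vs i) (vle (i + 1) hi).1 h4, h1⟩
      refine h1.trans ?_
      have h2 := CH_bd1 hp (bps F (v i) (q + v i) i0) (cxt F q i0 B b (v (i + 1))) 3 ?_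
      · refine h2.trans (le_of_eq ?_)
        norm_num
      intro ω ω' _ _ h
      unfold cxt at h
      simp only [Prod.mk.injEq] at h
      obtain ⟨⟨h2, h3⟩, h4, h5⟩ := h
      obtain ⟨s, s0, s1, e, e'⟩ := shift_two F (vs i) (vle (i + 1) hi).1 h4
      rw [hB] at h2
      have g4' := (tlb_near h2).2.1
      have g5 := floor_same h5
      rw [congrFun e i0, congrFun e' i0] at g5
      have g6 : |F.x1 (v i) ω i0 - F.x1 (v i) ω' i0| ≤ 2 / 2 ^ (q + v i) := by
        have e1 : F.x1 (v i) ω i0 - F.x1 (v i) ω' i0 =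
          (F.x1 (v i) ω i0 + s * F.d ω i0 - (F.x1 (v i) ω' i0 + s * F.d ω' i0)) -
          s * (F.d ω i0 - F.d ω' i0) := by ring
        rw [e1]
        refine (abs_sub _ _).trans ?_
        rw [abs_mul, abs_of_nonneg s0]
        have f1 : s * |F.d ω i0 - F.d ω' i0| ≤ 1 / 2 ^ (v i) * (1 / 2 ^ q) :=
          mul_le_mul s1 g4' (abs_nonneg _) (by positivity)
        have f2 : (1 : ℝ) / 2 ^ (v i) * (1 / 2 ^ q) = 1 / 2 ^ (q + v i) := by
          rw [pow_add 2 q (v i)]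
          field_simp
        have f3 : (1 : ℝ) / 2 ^ (q + v (i + 1)) ≤ 1 / 2 ^ (q + v i) :=
          one_div_le_one_div_of_le (by positivity)
            (pow_le_pow_right₀ (by norm_num) (Nat.add_le_add_left (vs i) q))
        have f4 : 2 / (2 : ℝ) ^ (q + v i) = 1 / 2 ^ (q + v i) + 1 / 2 ^ (q + v i) := by ring
        rw [f4]
        linarith only [g5, f1, f2, f3]
      refine (floor_close g6).trans ?_
      norm_num
    · -- the line determines the row
      intro i hi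
      have h2 := CH_bd1 hp (bps F (v (i + 1)) (q + v (i + 1)) i0)
        (fun ω => (L ω, (F.T1 (v (i + 1)) ω, cxt F q i0 B b (v i) ω))) 3 ?_
      · refine h2.trans (le_of_eq ?_)
        norm_num
      intro ω ω' _ _ h
      simp only [Prod.mk.injEq] at h
      obtain ⟨h1, h2, -⟩ := h
      obtain ⟨s, s0, s1, e, e'⟩ := shift_two F (vw (i + 1)) (vle (i + 1) hi).1 h2
      rw [hL] at h1
      have g0 := congrFun h1 0
      have g1 := congrFun h1 1
      unfold lin at g0 g1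
      simp only [Matrix.cons_val_zero, Matrix.cons_val_one] at g0 g1
      have g0' := floor_same g0
      have g1' := floor_same g1
      have hvd := (vle (i + 1) hi).2
      have g6 : |F.x1 (v (i + 1)) ω i0 - F.x1 (v (i + 1)) ω' i0| ≤ 2 / 2 ^ (q + v (i + 1)) := by
        rw [congrFun e i0, congrFun e' i0]
        have e1 : F.x1 w ω i0 + s * F.d ω i0 - (F.x1 w ω' i0 + s * F.d ω' i0) =
          (F.x1 w ω i0 - F.x1 w ω' i0) + s * (F.d ω i0 - F.d ω' i0) := by ring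
        rw [e1]
        refine (abs_add_le _ _).trans ?_
        rw [abs_mul, abs_of_nonneg s0]
        have f1 : s * |F.d ω i0 - F.d ω' i0| ≤ 1 / 2 ^ w * (1 / 2 ^ (q + δ)) :=
          mul_le_mul s1 g1' (abs_nonneg _) (by positivity)
        have f2 : (1 : ℝ) / 2 ^ w * (1 / 2 ^ (q + δ)) = 1 / 2 ^ (q + w + δ) := by
          rw [pow_add 2 (q + w) δ, pow_add 2 q w, pow_add 2 q δ]
          field_simp
        have f3 : (1 : ℝ) / 2 ^ (q + w + δ) ≤ 1 / 2 ^ (q + v (i + 1)) :=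
          one_div_le_one_div_of_le (by positivity)
            (pow_le_pow_right₀ (by norm_num) (by omega))
        have f4 : 2 / (2 : ℝ) ^ (q + v (i + 1)) =
          1 / 2 ^ (q + v (i + 1)) + 1 / 2 ^ (q + v (i + 1)) := by ring
        rw [f4]
        linarith only [g0', f1, f2, f3]
      refine (floor_close g6).trans ?_
      norm_num

end Pool.PC
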