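import Pool.Agent.H90.STK.Defs
import Pool.Agent.H32.Dense.Conf

/-!
# LEMMA X of PLAN C: the entropy part

`b` is the context at the window `w`, `B` the context at the smaller window, `τ` the digits of the
time between them, `L` the part of the line which is the intersection of two planks `B` of two
times of the window.
-/

set_option autoImplicit false

namespace Pool.PC

open Finset Real
open Pool.Agent.H49.Ent Pool.Agent.H32.Dense Pool.STK

variable {Ω S T U V W : Type} [Fintype Ω] {p : Ω → ℝ}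

/-- Removing a variable from the condition. -/
theorem CH_drop (hp : ∀ ω, 0 ≤ p ω) (X : Ω → S) (Y : Ω → T) (Z : Ω → U) :
    CH p X Z ≤ CH p X (fun ω => (Y ω, Z ω)) + CH p Y Z := by
  have := CH_le_add hp X Y Z
  linarith

/-- **Chains of rows pay for the line.** `c (i + 1)` determines `(Y i, τ i, c i)` up to `e'`; the
row `Y i` is determined by `(L, τ i, c i)` up to `e`. -/
theorem pay (hp : ∀ ω, 0 ≤ p ω) (n : ℕ) (L : Ω → S) (c : ℕ → Ω → T) (τ : ℕ → Ω → U)
    (Y : ℕ → Ω → V) {e e' : ℝ}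
    (h1 : ∀ i < n, CH p (fun ω => (Y i ω, (τ i ω, c i ω))) (c (i + 1)) ≤ e')
    (h2 : ∀ i < n, CH p (Y i) (fun ω => (L ω, (τ i ω, c i ω))) ≤ e) :
    ∑ i ∈ Finset.range n, CH p (Y i) (fun ω => (τ i ω, c i ω)) ≤
      CH p L (c 0) - CH p L (c n) + n * (e + e') := by
  induction n with
  | zero => simp
  | succ n ih =>
    rw [Finset.sum_range_succ]
    have i1 := ih (fun i hi => h1 i (hi.trans (Nat.lt_succ_self n)))
      (fun i hi => h2 i (hi.trans (Nat.lt_succ_self n)))
    have i2 : CH p L (fun ω => (τ n ω, c n ω)) ≤ CH p L (c n) :=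
      CH_mono_cond hp fun ω ω' _ _ h => (Prod.ext_iff.mp h).2
    have i3 := CH_chain hp L (Y n) (fun ω => (τ n ω, c n ω))
    have i4 := CH_chain hp (Y n) L (fun ω => (τ n ω, c n ω))
    have i5 : CH p (fun ω => (L ω, Y n ω)) (fun ω => (τ n ω, c n ω)) =
        CH p (fun ω => (Y n ω, L ω)) (fun ω => (τ n ω, c n ω)) := by
      refine CH_congr hp ?_ ?_ (fun _ _ _ _ h => h) (fun _ _ _ _ h => h) <;>
      · intro ω ω' _ _ h
        simp only [Prod.mk.injEq] at h ⊢
        tauto
    have i6 := h2 n (Nat.lt_succ_self n)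
    have i7 : CH p L (c (n + 1)) ≤ CH p L (fun ω => (Y n ω, (τ n ω, c n ω))) + e' := by
      refine (CH_le_add hp L (fun ω => (Y n ω, (τ n ω, c n ω))) (c (n + 1))).trans ?_
      have j1 := h1 n (Nat.lt_succ_self n)
      have j2 : CH p L (fun ω => ((Y n ω, (τ n ω, c n ω)), c (n + 1) ω)) ≤
          CH p L (fun ω => (Y n ω, (τ n ω, c n ω))) :=
        CH_mono_cond hp fun ω ω' _ _ h => (Prod.ext_iff.mp h).1
      linarith
    push_cast
    linarith

/-- **Two planks of one window.** -/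
theorem two_planks (hp : ∀ ω, 0 ≤ p ω) (C : Ω → W) (b : Ω → T) (B : Ω → U) (τ : Ω → V) (L : Ω → S)
    (hb : Det p C b) {e : ℝ}
    (hL : CH (dbl p C) (fun w => L w.1)
      (fun w => (B w.1, (B w.2, (τ w.1, (τ w.2, b w.1))))) ≤ e) :
    CH p L (fun ω => (B ω, (τ ω, b ω))) ≤
      CH p B (fun ω => (τ ω, b ω)) + 2 * CH p τ b + e := by
  obtain ⟨q, hq⟩ : ∃ q, q = dbl p C := ⟨_, rfl⟩
  rw [← hq] at hL
  have hq0 : ∀ w, 0 ≤ q w := by rw [hq]; exact dbl_nonneg hp
  have mf : Marg q p (fun w => w.1) := by rw [hq]; exact dbl_fst hp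
  have ms : Marg q p (fun w => w.2) := by rw [hq]; exact dbl_snd hp
  have heq : ∀ w, 0 < q w → b w.1 = b w.2 := by
    intro w hw
    have h := hw
    rw [hq] at h
    exact hb _ _ (mf.pos hq0 hw) (ms.pos hq0 hw) (dbl_eq hp h)
  -- marginals
  have f1 : CH q (fun w => B w.1) (fun w => (τ w.1, b w.1)) = CH p B (fun ω => (τ ω, b ω)) :=
    mf.CH B (fun ω => (τ ω, b ω))
  have f2 : CH q (fun w => B w.2) (fun w => (τ w.2, b w.1)) = CH p B (fun ω => (τ ω, b ω)) := by
    rw [← ms.CH B (fun ω => (τ ω, b ω))]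
    refine CH_congr hq0 (fun _ _ _ _ h => (Prod.ext_iff.mp h).1)
      (fun _ _ _ _ h => (Prod.ext_iff.mp h).1) ?_ ?_
    · intro w w' hw hw' h
      simp only [Prod.mk.injEq] at h ⊢
      exact ⟨h.1, by rw [← heq w hw, ← heq w' hw']; exact h.2⟩
    · intro w w' hw hw' h
      simp only [Prod.mk.injEq] at h ⊢
      exact ⟨h.1, by rw [heq w hw, heq w' hw']; exact h.2⟩
  have f3 : CH q (fun w => τ w.2) (fun w => b w.1) = CH p τ b := by
    rw [← ms.CH τ b]
    refine CH_congr hq0 (fun _ _ _ _ h => (Prod.ext_iff.mp h).1)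
      (fun _ _ _ _ h => (Prod.ext_iff.mp h).1) ?_ ?_
    · intro w w' hw hw' h
      show b w.2 = b w'.2
      rw [← heq w hw, ← heq w' hw']
      exact h
    · intro w w' hw hw' h
      show b w.1 = b w'.1
      rw [heq w hw, heq w' hw']
      exact h
  have f4 : CH q (fun w => L w.1) (fun w => (B w.1, (τ w.1, b w.1))) =
      CH p L (fun ω => (B ω, (τ ω, b ω))) := mf.CH L (fun ω => (B ω, (τ ω, b ω)))
  -- the condition
  obtain ⟨Z, hZ⟩ : ∃ Z : Ω × Ω → V × (V × T), Z = fun w => (τ w.1, (τ w.2, b w.1)) := ⟨_, rfl⟩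
  have g1 : CH q (fun w => B w.2) (fun w => (B w.1, Z w)) ≤
      CH q (fun w => B w.2) (fun w => (τ w.2, b w.1)) :=
    CH_mono_cond hq0 fun w w' _ _ h => by
      rw [hZ] at h
      simp only [Prod.mk.injEq] at h ⊢
      exact ⟨h.2.2.1, h.2.2.2⟩
  have g2 : CH q (fun w => τ w.2) (fun w => (B w.1, (τ w.1, b w.1))) ≤
      CH q (fun w => τ w.2) (fun w => b w.1) :=
    CH_mono_cond hq0 fun w w' _ _ h => by
      simp only [Prod.mk.injEq] at h ⊢
      exact h.2.2
  -- the chain rules for `L`, `B'` given `B`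
  have g3 := CH_chain hq0 (fun w => L w.1) (fun w => B w.2) (fun w => (B w.1, Z w))
  have g4 := CH_chain hq0 (fun w => B w.2) (fun w => L w.1) (fun w => (B w.1, Z w))
  have g5 : CH q (fun w => (L w.1, B w.2)) (fun w => (B w.1, Z w)) =
      CH q (fun w => (B w.2, L w.1)) (fun w => (B w.1, Z w)) := by
    refine CH_congr hq0 ?_ ?_ (fun _ _ _ _ h => h) (fun _ _ _ _ h => h) <;>
    · intro ω ω' _ _ h
      simp only [Prod.mk.injEq] at h ⊢
      tauto
  have g6 : CH q (fun w => L w.1) (fun w => (B w.2, (B w.1, Z w))) ≤ e := by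
    refine le_trans (CH_mono_cond hq0 fun w w' _ _ h => ?_) hL
    rw [hZ] at h
    simp only [Prod.mk.injEq] at h ⊢
    tauto
  have g7 := CH_nonneg hq0 (fun w => B w.2) (fun w => (L w.1, (B w.1, Z w)))
  -- `L` given `B` and the two times
  have g8 : CH q (fun w => L w.1) (fun w => (B w.1, (τ w.1, b w.1))) ≤
      CH q (fun w => L w.1) (fun w => (B w.1, Z w)) +
        CH q (fun w => τ w.2) (fun w => (B w.1, (τ w.1, b w.1))) := by
    refine (CH_le_add hq0 (fun w => L w.1) (fun w => τ w.2) _).trans ?_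
    have : CH q (fun w => L w.1) (fun w => (τ w.2, (B w.1, (τ w.1, b w.1)))) ≤
        CH q (fun w => L w.1) (fun w => (B w.1, Z w)) :=
      CH_mono_cond hq0 fun w w' _ _ h => by
        rw [hZ]
        simp only [Prod.mk.injEq] at h ⊢
        tauto
    linarith
  have g9 := CH_nonneg hq0 (fun w => τ w.2) (fun w => b w.1)
  linarith

end Pool.PC
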