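import Pool.Agent.H64.PC.Box
import Pool.Agent.H35.K2S.Stab
import Pool.Agent.H81.PC.Core

/-!
# LEMMA X of PLAN C: one family

The information of the contexts `(w, q)` about the line drops at most by a multiple of the length
of the window in digits, below the growth of the frame: two tubes of one long window, with
different frames, determine the base position and the base velocity to further digits, and these
digits pay for the full rows of the base position of the shorter windows.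
-/

set_option autoImplicit false

namespace Pool.PC

open Finset Real
open Pool.Agent.H49.Ent Pool.Agent.H32.Dense Pool.STK Pool.KA Pool.KSAT Pool.K2S

variable {m J : ℕ}

open Classical in
/-- Entropy of digits which are known outside a small event. -/
theorem CH_good {Ω T : Type} [Fintype Ω] {d : ℕ} {p : Ω → ℝ} (hp : IsLaw p) (X : Ω → Fin d → ℤ)
    (W : Ω → T) (B : Ω → Prop) (L M ε : ℝ) (hL : 0 ≤ L) (hM : 0 ≤ M) (hε : Pe p B ≤ ε)
    (hX : ∀ ω ω', 0 < p ω → 0 < p ω' → W ω = W ω' → ¬ B ω → ¬ B ω' →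
      ∀ k, |((X ω k - X ω' k : ℤ) : ℝ)| ≤ L)
    (hXM : ∀ ω ω', 0 < p ω → 0 < p ω' → W ω = W ω' → ∀ k, |((X ω k - X ω' k : ℤ) : ℝ)| ≤ M) :
    CH p X W ≤ Real.log 2 + d * (Real.log (2 * L + 1) + ε * Real.log (2 * M + 1)) := by
  obtain ⟨I, hI⟩ : ∃ I : Ω → Bool, I = fun ω => decide (B ω) := ⟨_, rfl⟩
  have h1 : CH p X W ≤ CH p I W + CH p X (fun ω => (I ω, W ω)) := CH_le_add hp.nonneg X I W
  have h2 : CH p I W ≤ Real.log 2 := by
    have h3 := CH_le_card hp.nonneg hp.sum_one I W (fun _ => Finset.univ)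
      (fun ω _ => Finset.mem_univ _)
    refine h3.trans ?_
    rw [Ex_const hp.sum_one]
    simp
  obtain ⟨N, hN⟩ : ∃ N : Ω → ℝ, N = fun ω => if B ω then M else L := ⟨_, rfl⟩
  have h4 : CH p X (fun ω => (I ω, W ω)) ≤ d * Ex p (fun ω => Real.log (2 * N ω + 1)) := by
    refine CH_le_vec hp.nonneg hp.sum_one X _ N ?_
    intro ω ω' hω hω' h k
    obtain ⟨h5, h6⟩ := Prod.ext_iff.mp h
    simp only at h5 h6
    by_cases h7 : B ω
    · rw [hN]
      dsimp only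
      rw [if_pos h7]
      exact hXM ω ω' hω hω' h6 k
    · have h8 : ¬ B ω' := by
        intro h9
        rw [hI] at h5
        dsimp only at h5
        rw [decide_eq_false h7, decide_eq_true h9] at h5
        exact Bool.false_ne_true h5
      rw [hN]
      dsimp only
      rw [if_neg h7]
      exact hX ω ω' hω hω' h6 h7 h8 k
  have hlogM : 0 ≤ Real.log (2 * M + 1) := Real.log_nonneg (by linarith)
  have h5 : Ex p (fun ω => Real.log (2 * N ω + 1)) ≤
      Real.log (2 * L + 1) + ε * Real.log (2 * M + 1) := by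
    have h6 : Ex p (fun ω => Real.log (2 * N ω + 1)) ≤ Ex p (fun ω => Real.log (2 * L + 1) +
        Real.log (2 * M + 1) * (if B ω then 1 else 0)) := by
      refine Ex_mono hp.nonneg fun ω _ => ?_
      have hlogL : 0 ≤ Real.log (2 * L + 1) := Real.log_nonneg (by linarith)
      rw [hN]
      dsimp only
      by_cases h7 : B ω
      · rw [if_pos h7, if_pos h7]
        linarith
      · rw [if_neg h7, if_neg h7]
        linarith
    rw [Ex_add, Ex_const hp.sum_one, Ex_smul] at h6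
    have h8 : Ex p (fun ω => if B ω then (1 : ℝ) else 0) = Pe p B := by
      rw [Pe_eq]
      unfold Ex
      refine Finset.sum_congr rfl fun ω _ => ?_
      by_cases h9 : B ω
      · simp [h9]
      · simp [h9]
    rw [h8] at h6
    have h9 := mul_le_mul_of_nonneg_left hε hlogM
    linarith
  have h10 : (d : ℝ) * Ex p (fun ω => Real.log (2 * N ω + 1)) ≤
      d * (Real.log (2 * L + 1) + ε * Real.log (2 * M + 1)) :=
    mul_le_mul_of_nonneg_left h5 (Nat.cast_nonneg d)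
  linarith

/-- The base position at the beginning of the window, rounded. -/
noncomputable def bps (F : Fam m J) (v a : ℕ) (i0 : Fin m) (ω : F.Ω) : ℤ :=
  ⌊(2 : ℝ) ^ a * F.x1 v ω i0⌋

theorem bps_rws (F : Fam m J) {g a lam : ℕ} {i0 : Fin m} {z : F.Ω → Fin m → ℝ} (ω : F.Ω) :
    rws F g a lam i0 z ω i0 = bps F g a i0 ω := by
  show ⌊(2 : ℝ) ^ a * pco lam i0 (z ω) (F.x1 g ω) i0⌋ = ⌊(2 : ℝ) ^ a * F.x1 g ω i0⌋
  unfold pco
  rw [if_pos rfl]

theorem floor_same {a : ℕ} {x y : ℝ} (h : ⌊(2 : ℝ) ^ a * x⌋ = ⌊(2 : ℝ) ^ a * y⌋) :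
    |x - y| ≤ 1 / 2 ^ a :=
  fl_same (m := 1) (x := fun _ => x) (y := fun _ => y) (funext fun _ => h) 0

theorem floor_close {a : ℕ} {x y c : ℝ} (h : |x - y| ≤ c / 2 ^ a) :
    |((⌊(2 : ℝ) ^ a * x⌋ - ⌊(2 : ℝ) ^ a * y⌋ : ℤ) : ℝ)| ≤ c + 1 :=
  fl_close (m := 1) (x := fun _ => x) (y := fun _ => y) (fun _ => h) 0

theorem CH_bd1 {Ω S : Type} [Fintype Ω] {p : Ω → ℝ} (hp : IsLaw p) (X : Ω → ℤ)
    (W : Ω → S) (c : ℝ) (h : ∀ ω ω', 0 < p ω → 0 < p ω' → W ω = W ω' →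
      |((X ω - X ω' : ℤ) : ℝ)| ≤ c) : CH p X W ≤ Real.log (2 * c + 1) := by
  have h1 := CH_bd hp (fun ω (_ : Fin 1) => X ω) W c (fun ω ω' h1 h2 h3 _ => h ω ω' h1 h2 h3)
  have h2 : CH p X W ≤ CH p (fun ω (_ : Fin 1) => X ω) W :=
    CH_mono_left hp.nonneg fun ω ω' _ _ h => congrFun (Prod.ext_iff.mp h).1 0
  push_cast at h1
  linarith

/-- The components of the label of a context. -/
theorem qlb_ext {F : Fam m J} {w q l : ℕ} {i0 : Fin m} {z : F.Ω → Fin m → ℝ} {ω ω' : F.Ω}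
    (h : F.qlb w q l i0 z ω = F.qlb w q l i0 z ω') :
    F.T1 w ω = F.T1 w ω' ∧ z ω = z ω' ∧ rws F w (q + w) l i0 z ω = rws F w (q + w) l i0 z ω' ∧
      rvs F q l i0 z ω = rvs F q l i0 z ω' ∧ F.Z ω = F.Z ω' := by
  have h1 := Prod.ext_iff.mp h
  have h2 := Prod.ext_iff.mp h1.1
  have h3 := Prod.ext_iff.mp h2.1
  have h4 := Prod.ext_iff.mp h2.2
  exact ⟨h3.1, h3.2, h4.1, h4.2, h1.2⟩

theorem qlb_mk {F : Fam m J} {w q l : ℕ} {i0 : Fin m} {z : F.Ω → Fin m → ℝ} {ω ω' : F.Ω}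
    (h1 : F.T1 w ω = F.T1 w ω') (h2 : z ω = z ω')
    (h3 : rws F w (q + w) l i0 z ω = rws F w (q + w) l i0 z ω')
    (h4 : rvs F q l i0 z ω = rvs F q l i0 z ω') (h5 : F.Z ω = F.Z ω') :
    F.qlb w q l i0 z ω = F.qlb w q l i0 z ω' :=
  Prod.ext (Prod.ext (Prod.ext h1 h2) (Prod.ext h3 h4)) h5

theorem T1_of_le (F : Fam m J) {w v : ℕ} (h : w ≤ v) (hv : v ≤ J) {ω ω' : F.Ω}
    (hT : F.T1 v ω = F.T1 v ω') : F.T1 w ω = F.T1 w ω' := by
  obtain ⟨X, rfl⟩ := Nat.exists_eq_add_of_le h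
  rw [← T1_div F hv ω, ← T1_div F hv ω', hT]

/-- The positions at the beginnings of two windows. -/
theorem shift_two (F : Fam m J) {w v : ℕ} (h : w ≤ v) (hv : v ≤ J) {ω ω' : F.Ω}
    (hT : F.T1 v ω = F.T1 v ω') : ∃ s : ℝ, 0 ≤ s ∧ s ≤ 1 / 2 ^ w ∧
      (F.x1 v ω = fun i => F.x1 w ω i + s * F.d ω i) ∧
      (F.x1 v ω' = fun i => F.x1 w ω' i + s * F.d ω' i) := by
  obtain ⟨X, rfl⟩ := Nat.exists_eq_add_of_le h
  obtain ⟨s, hs, s0, s1, hs2⟩ := x1_shift F hv ω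
  obtain ⟨s', hs', -, -, hs2'⟩ := x1_shift F hv ω'
  have e : s = s' := by rw [hs, hs', hT, T1_of_le F h hv hT]
  rw [← e] at hs2'
  exact ⟨s, s0, s1, hs2, hs2'⟩

/-- **Labels of the contexts are nested.** -/
theorem nest {F : Fam m J} {p : F.Ω → ℝ} (hp : IsLaw p) {C₀ : ℝ} (hC₀ : 0 ≤ C₀) {i0 : Fin m}
    {w v q l l' : ℕ} (hwv : w ≤ v) (hv : v ≤ J) (hl : l ≤ l') {z z' : F.Ω → Fin m → ℝ}
    (hgr : ∀ ω j, ∃ k : ℤ, z ω j = k / 2 ^ l) (hz0 : ∀ ω, z ω i0 = 0)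
    (hcl : ∀ ω, 0 < p ω → ∀ j, j ≠ i0 → |z ω j - z' ω j| ≤ C₀ / 2 ^ l) :
    CH p (F.qlb w q l i0 z) (F.qlb v q l' i0 z') ≤
      m * Real.log (2 * (2 * C₀) + 1) + 2 * (m * Real.log (2 * (2 * (1 + C₀) + 1) + 1)) := by
  have hp0 := hp.nonneg
  obtain ⟨b2, hb2⟩ : ∃ b, b = F.qlb v q l' i0 z' := ⟨_, rfl⟩
  rw [← hb2]
  -- the frame
  have r2 : CH p z b2 ≤ m * Real.log (2 * (2 * C₀) + 1) := by
    have h1 : CH p z b2 ≤ CH p (fun ω j => ⌊(2 : ℝ) ^ l * z ω j⌋) b2 := by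
      refine CH_mono_left hp0 fun ω ω' _ _ h => ?_
      have h2 := (Prod.ext_iff.mp h).1
      simp only at h2
      funext j
      obtain ⟨k, hk⟩ := hgr ω j
      obtain ⟨k', hk'⟩ := hgr ω' j
      have h3 := congrFun h2 j
      simp only [hk, hk'] at h3
      rw [mul_div_cancel₀ _ (by positivity), mul_div_cancel₀ _ (by positivity), Int.floor_intCast,
        Int.floor_intCast] at h3
      rw [hk, hk', h3]
    refine h1.trans (CH_bd hp _ _ _ fun ω ω' hω hω' h j => ?_)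
    rw [hb2] at h
    obtain ⟨-, h2, -⟩ := qlb_ext h
    have h2l : (0 : ℝ) < 2 ^ l := by positivity
    obtain ⟨k, hk⟩ := hgr ω j
    obtain ⟨k', hk'⟩ := hgr ω' j
    simp only [hk, hk']
    rw [mul_div_cancel₀ _ (by positivity), mul_div_cancel₀ _ (by positivity), Int.floor_intCast,
      Int.floor_intCast]
    by_cases hj : j = i0
    · have e1 := hz0 ω
      have e2 := hz0 ω'
      rw [← hj] at e1 e2
      rw [hk] at e1
      rw [hk'] at e2
      have e3 : (k : ℝ) = 0 := by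
        rcases div_eq_zero_iff.1 e1 with h | h
        · exact h
        · exact absurd h h2l.ne'
      have e4 : (k' : ℝ) = 0 := by
        rcases div_eq_zero_iff.1 e2 with h | h
        · exact h
        · exact absurd h h2l.ne'
      push_cast
      rw [e3, e4, sub_zero, abs_zero]
      linarith
    · have g1 := hcl ω hω j hj
      have g2 := hcl ω' hω' j hj
      rw [← h2] at g2
      have g3 : |z ω j - z ω' j| ≤ 2 * C₀ / 2 ^ l := by
        have e1 : z ω j - z ω' j = (z ω j - z' ω j) - (z ω' j - z' ω j) := by ring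
        rw [e1]
        refine (abs_sub _ _).trans ?_
        have e2 : 2 * C₀ / 2 ^ l = C₀ / 2 ^ l + C₀ / 2 ^ l := by ring
        rw [e2]
        exact add_le_add g1 g2
      rw [hk, hk', ← sub_div, abs_div, abs_of_pos h2l] at g3
      rw [div_le_div_iff_of_pos_right h2l] at g3
      push_cast
      exact g3
  -- differences in the frame of the long window
  have hb2d : ∀ ω ω', 0 < p ω → b2 ω = b2 ω' →
      (∀ k, |pco l i0 (z ω) (F.x1 v ω) k - pco l i0 (z ω) (F.x1 v ω') k| ≤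
        (1 + C₀) * (1 / 2 ^ (q + v))) ∧
      ∀ k, |pco l i0 (z ω) (F.d ω) k - pco l i0 (z ω) (F.d ω') k| ≤ (1 + C₀) * (1 / 2 ^ q) := by
    intro ω ω' hω h
    rw [hb2] at h
    obtain ⟨-, h2, h3, h4, -⟩ := qlb_ext h
    constructor
    · intro k
      rw [← pco_sub]
      refine pco_frame hl i0 (hcl ω hω) hC₀ (fun k => ?_) k
      rw [pco_sub]
      have := fl_same h3 k
      rwa [← h2] at this
    · intro k
      rw [← pco_sub]
      refine pco_frame hl i0 (hcl ω hω) hC₀ (fun k => ?_) k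
      rw [pco_sub]
      have := fl_same h4 k
      rwa [← h2] at this
  have h1 := CH_le_add hp0 (F.qlb w q l i0 z) z b2
  have h2 : CH p (F.qlb w q l i0 z) (fun ω => (z ω, b2 ω)) ≤
      CH p (fun ω => (rws F w (q + w) l i0 z ω, rvs F q l i0 z ω)) (fun ω => (z ω, b2 ω)) := by
    refine CH_mono_left hp0 fun ω ω' _ _ h => ?_
    simp only [Prod.mk.injEq] at h
    obtain ⟨⟨h1, h2⟩, h3, h4⟩ := h
    rw [hb2] at h4
    obtain ⟨g1, g2, g3, g4, g5⟩ := qlb_ext h4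
    exact qlb_mk (T1_of_le F hwv hv g1) h3 h1 h2 g5
  have h3 := CH_subadd hp0 (rws F w (q + w) l i0 z) (rvs F q l i0 z) (fun ω => (z ω, b2 ω))
  have h4 : CH p (rws F w (q + w) l i0 z) (fun ω => (z ω, b2 ω)) ≤
      m * Real.log (2 * (2 * (1 + C₀) + 1) + 1) := by
    refine CH_bd hp _ _ _ fun ω ω' hω hω' h k => ?_
    simp only [Prod.mk.injEq] at h
    obtain ⟨h3, h4⟩ := h
    obtain ⟨g1, g2⟩ := hb2d ω ω' hω h4
    rw [hb2] at h4
    obtain ⟨s, s0, s1, e, e'⟩ := shift_two F hwv hv (qlb_ext h4).1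
    unfold rws
    refine fl_close (fun j => ?_) k
    rw [← h3]
    have g1' := g1 j
    rw [e, e', pco_add_mul, pco_add_mul] at g1'
    have e5 : pco l i0 (z ω) (F.x1 w ω) j - pco l i0 (z ω) (F.x1 w ω') j =
        (pco l i0 (z ω) (F.x1 w ω) j + s * pco l i0 (z ω) (F.d ω) j -
        (pco l i0 (z ω) (F.x1 w ω') j + s * pco l i0 (z ω) (F.d ω') j)) -
        s * (pco l i0 (z ω) (F.d ω) j - pco l i0 (z ω) (F.d ω') j) := by ring
    rw [e5]
    refine (abs_sub _ _).trans ?_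
    rw [abs_mul, abs_of_nonneg s0]
    have g5 : s * |pco l i0 (z ω) (F.d ω) j - pco l i0 (z ω) (F.d ω') j| ≤
        1 / 2 ^ w * ((1 + C₀) * (1 / 2 ^ q)) :=
      mul_le_mul s1 (g2 j) (abs_nonneg _) (by positivity)
    have g6 : (1 : ℝ) / 2 ^ w * ((1 + C₀) * (1 / 2 ^ q)) = (1 + C₀) * (1 / 2 ^ (q + w)) := by
      rw [pow_add 2 q w]
      field_simp
    have g7 : (1 : ℝ) / 2 ^ (q + v) ≤ 1 / 2 ^ (q + w) :=
      one_div_le_one_div_of_le (by positivity) (pow_le_pow_right₀ (by norm_num) (by omega))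
    have g8 := mul_le_mul_of_nonneg_left g7 (show 0 ≤ 1 + C₀ by linarith)
    have g9 : 2 * (1 + C₀) / 2 ^ (q + w) = (1 + C₀) * (1 / 2 ^ (q + w)) +
      (1 + C₀) * (1 / 2 ^ (q + w)) := by ring
    rw [g9]
    linarith
  have h5 : CH p (rvs F q l i0 z) (fun ω => (z ω, b2 ω)) ≤
      m * Real.log (2 * (2 * (1 + C₀) + 1) + 1) := by
    refine CH_bd hp _ _ _ fun ω ω' hω hω' h k => ?_
    simp only [Prod.mk.injEq] at h
    obtain ⟨h3, h4⟩ := h
    obtain ⟨g1, g2⟩ := hb2d ω ω' hω h4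
    unfold rvs
    refine fl_close (fun j => ?_) k
    rw [← h3]
    refine (g2 j).trans ?_
    have g9 : 2 * (1 + C₀) / 2 ^ q = (1 + C₀) * (1 / 2 ^ q) + (1 + C₀) * (1 / 2 ^ q) := by ring
    rw [g9]
    have : 0 ≤ (1 + C₀) * (1 / 2 ^ q) := by positivity
    linarith
  linarith

/-! ### Two tubes of one window -/

/-- The digits of the line: base position at the beginning of the window, base velocity. -/
noncomputable def lin (F : Fam m J) (w a c : ℕ) (i0 : Fin m) (ω : F.Ω) : Fin 2 → ℤ :=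
  ![⌊(2 : ℝ) ^ a * F.x1 w ω i0⌋, ⌊(2 : ℝ) ^ c * F.d ω i0⌋]

/-- Two numbers which are close to the same multiples of `X`. -/
theorem cross1 {X Y a a' r : ℝ} {n k : ℕ} (h1 : |2 ^ n * (Y - a * X)| ≤ r)
    (h2 : |2 ^ n * (Y - a' * X)| ≤ r) (ha : 1 / 2 ^ k < |a - a'|) (hk : k ≤ n) :
    |X| ≤ 2 * r / 2 ^ (n - k) := by
  have pn : (0 : ℝ) < 2 ^ n := by positivity
  have pk : (0 : ℝ) < 2 ^ k := by positivity
  have e1 : 2 ^ n * ((a - a') * X) = 2 ^ n * (Y - a' * X) - 2 ^ n * (Y - a * X) := by ring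
  have h3 : 2 ^ n * (|a - a'| * |X|) ≤ 2 * r := by
    have h4 : |2 ^ n * ((a - a') * X)| ≤ r + r := by
      rw [e1]
      exact (abs_sub _ _).trans (add_le_add h2 h1)
    rw [abs_mul, abs_mul, abs_of_pos pn] at h4
    linarith
  have h5 : (1 : ℝ) / 2 ^ k * |X| ≤ |a - a'| * |X| :=
    mul_le_mul_of_nonneg_right ha.le (abs_nonneg _)
  have h6 := mul_le_mul_of_nonneg_left h5 pn.le
  have e2 : (2 : ℝ) ^ n * (1 / 2 ^ k * |X|) = 2 ^ (n - k) * |X| := by
    have : (2 : ℝ) ^ n = 2 ^ (n - k) * 2 ^ k := by rw [← pow_add, Nat.sub_add_cancel hk]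
    rw [this]
    field_simp
  rw [e2] at h6
  rw [le_div_iff₀ (by positivity), mul_comm]
  linarith

/-- The positions of a line with equal label, at another time. -/
theorem tube_at {F : Fam m J} {w v q l' : ℕ} {i0 : Fin m} {z' : F.Ω → Fin m → ℝ} (hwv : w ≤ v)
    (hv : v ≤ J) {ω ω' : F.Ω} (h : F.qlb v q l' i0 z' ω = F.qlb v q l' i0 z' ω') (j : Fin m) :
    |pco l' i0 (z' ω) (fun i => F.x1 w ω i - F.x1 w ω' i) j| ≤ 2 / 2 ^ (q + w) ∧
      |pco l' i0 (z' ω) (fun i => F.d ω i - F.d ω' i) j| ≤ 1 / 2 ^ q := by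
  obtain ⟨h1, h2, h3, h4, -⟩ := qlb_ext h
  obtain ⟨s, s0, s1, e, e'⟩ := shift_two F hwv hv h1
  have g3 := fl_same h3 j
  have g4 := fl_same h4 j
  rw [← h2] at g3 g4
  rw [pco_sub, pco_sub]
  refine ⟨?_, g4⟩
  rw [e, e', pco_add_mul, pco_add_mul] at g3
  have e5 : pco l' i0 (z' ω) (F.x1 w ω) j - pco l' i0 (z' ω) (F.x1 w ω') j =
      (pco l' i0 (z' ω) (F.x1 w ω) j + s * pco l' i0 (z' ω) (F.d ω) j -
      (pco l' i0 (z' ω) (F.x1 w ω') j + s * pco l' i0 (z' ω) (F.d ω') j)) -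
      s * (pco l' i0 (z' ω) (F.d ω) j - pco l' i0 (z' ω) (F.d ω') j) := by ring
  rw [e5]
  refine (abs_sub _ _).trans ?_
  rw [abs_mul, abs_of_nonneg s0]
  have g5 : s * |pco l' i0 (z' ω) (F.d ω) j - pco l' i0 (z' ω) (F.d ω') j| ≤
      1 / 2 ^ w * (1 / 2 ^ q) := mul_le_mul s1 g4 (abs_nonneg _) (by positivity)
  have g6 : (1 : ℝ) / 2 ^ w * (1 / 2 ^ q) = 1 / 2 ^ (q + w) := by
    rw [pow_add 2 q w]
    field_simp
  have g7 : (1 : ℝ) / 2 ^ (q + v) ≤ 1 / 2 ^ (q + w) :=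
    one_div_le_one_div_of_le (by positivity) (pow_le_pow_right₀ (by norm_num) (by omega))
  have g9 : 2 / (2 : ℝ) ^ (q + w) = 1 / 2 ^ (q + w) + 1 / 2 ^ (q + w) := by ring
  rw [g9]
  linarith

/-- **Two tubes of one window** determine the digits of the line, if their frames differ. -/
theorem two_tubes {F : Fam m J} {p : F.Ω → ℝ} (hp : IsLaw p) {i0 : Fin m} {w v q l l' x : ℕ}
    (hwv : w ≤ v) (hv : v ≤ J) (hlx : l + x ≤ l') {z z' : F.Ω → Fin m → ℝ} {p₁ : ℝ}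
    (hp1 : Pe (dbl p (slam F w)) (fun u => ∀ j, j ≠ i0 →
      |z' u.1 j - z' u.2 j| ≤ 1 / 2 ^ (l + x)) ≤ p₁) :
    CH (dbl p (slam F w)) (fun u => lin F w (q + w + (l' - (l + x))) (q + (l' - (l + x))) i0 u.1)
      (fun u => (F.qlb v q l' i0 z' u.1, (F.qlb v q l' i0 z' u.2, (F.T1 v u.1, (F.T1 v u.2,
        F.qlb w q l i0 z u.1))))) ≤
      Real.log 2 + 2 * (Real.log 11 + p₁ * ((l' - l : ℝ) * Real.log 2 + Real.log 5)) := by
  have hp0 := hp.nonneg
  obtain ⟨Q, hQ⟩ : ∃ Q, Q = dbl p (slam F w) := ⟨_, rfl⟩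
  rw [← hQ] at hp1 ⊢
  have mf : Marg Q p (fun u => u.1) := by rw [hQ]; exact dbl_fst hp0
  have hQ0 : ∀ u, 0 ≤ Q u := by rw [hQ]; exact dbl_nonneg hp0
  have hQl : IsLaw Q := ⟨hQ0, by rw [mf.sum]; exact hp.sum_one⟩
  have heq : ∀ u, 0 < Q u → slam F w u.1 = slam F w u.2 := by
    intro u hu
    rw [hQ] at hu
    exact dbl_eq hp0 hu
  obtain ⟨δ, hδ⟩ : ∃ δ, δ = l' - (l + x) := ⟨_, rfl⟩
  rw [← hδ]
  have pδ : (1 : ℝ) ≤ 2 ^ δ := one_le_pow₀ (by norm_num)
  have key := CH_good hQl (fun u => lin F w (q + w + δ) (q + δ) i0 u.1)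
    (fun u => (F.qlb v q l' i0 z' u.1, (F.qlb v q l' i0 z' u.2, (F.T1 v u.1, (F.T1 v u.2,
        F.qlb w q l i0 z u.1)))))
    (fun u => ∀ j, j ≠ i0 → |z' u.1 j - z' u.2 j| ≤ 1 / 2 ^ (l + x)) 5 (2 ^ δ + 1) p₁
    (by norm_num) (by positivity) hp1 ?_ ?_
  · refine key.trans ?_
    have e1 : (2 : ℝ) * 5 + 1 = 11 := by norm_num
    rw [e1]
    have h1 : Real.log (2 * (2 ^ δ + 1) + 1) ≤ (l' - l : ℝ) * Real.log 2 + Real.log 5 := by
      have h2 : (2 : ℝ) * (2 ^ δ + 1) + 1 ≤ 2 ^ δ * 5 := by linarith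
      refine (Real.log_le_log (by positivity) h2).trans ?_
      rw [Real.log_mul (by positivity) (by norm_num), Real.log_pow]
      have h3 : (δ : ℝ) ≤ l' - l := by
        rw [hδ]
        have : ((l' - (l + x) : ℕ) : ℝ) = l' - (l + x) := by
          rw [Nat.cast_sub hlx]
          push_cast
          ring
        rw [this]
        have : (0 : ℝ) ≤ x := Nat.cast_nonneg x
        linarith
      have h4 := mul_le_mul_of_nonneg_right h3 (Real.log_nonneg (by norm_num : (1 : ℝ) ≤ 2))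
      linarith
    have hp10 : 0 ≤ p₁ := (Pe_nonneg hQl _).trans hp1
    have h5 := mul_le_mul_of_nonneg_left h1 hp10
    push_cast
    linarith
  · -- the frames differ
    intro u u' hu hu' h hb _ k
    simp only [Prod.mk.injEq] at h
    obtain ⟨h1, h2, -⟩ := h
    push Not at hb
    obtain ⟨j, hj, hjz⟩ := hb
    have hs := heq u hu
    have hs' := heq u' hu'
    unfold slam at hs hs'
    simp only [Prod.mk.injEq] at hs hs'
    have eu : F.u u.1 = F.u u.2 := (Prod.ext_iff.mp hs.1).1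
    have ed : F.d u.1 = F.d u.2 := (Prod.ext_iff.mp hs.1).2
    have eu' : F.u u'.1 = F.u u'.2 := (Prod.ext_iff.mp hs'.1).1
    have ed' : F.d u'.1 = F.d u'.2 := (Prod.ext_iff.mp hs'.1).2
    have ex : F.x1 w u.2 = F.x1 w u.1 := by
      funext i
      unfold Fam.x1
      rw [eu, ed, hs.2.2]
    have ex' : F.x1 w u'.2 = F.x1 w u'.1 := by
      funext i
      unfold Fam.x1
      rw [eu', ed', hs'.2.2]
    obtain ⟨a1, a2⟩ := tube_at hwv hv h1 j
    obtain ⟨b1, b2⟩ := tube_at hwv hv h2 j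
    rw [ex, ex'] at b1
    rw [← ed, ← ed'] at b2
    unfold pco at a1 a2 b1 b2
    rw [if_neg hj] at a1 a2 b1 b2
    have c1 := cross1 a1 b1 hjz hlx
    have c2 := cross1 a2 b2 hjz hlx
    rw [← hδ] at c1 c2
    have d1 : |F.x1 w u.1 i0 - F.x1 w u'.1 i0| ≤ 4 / 2 ^ (q + w + δ) := by
      refine c1.trans (le_of_eq ?_)
      rw [pow_add 2 (q + w) δ]
      field_simp
      norm_num
    have d2 : |F.d u.1 i0 - F.d u'.1 i0| ≤ 4 / 2 ^ (q + δ) := by
      refine c2.trans ?_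
      have e : 2 * (1 / (2 : ℝ) ^ q) / 2 ^ δ = 2 / 2 ^ (q + δ) := by
        rw [pow_add 2 q δ]
        field_simp
      rw [e]
      exact div_le_div_of_nonneg_right (by norm_num) (by positivity)
    have f1 := floor_close d1
    have f2 := floor_close d2
    fin_cases k
    · refine f1.trans ?_
      norm_num
    · refine f2.trans ?_
      norm_num
  · -- the crude bound
    intro u u' hu hu' h k
    simp only [Prod.mk.injEq] at h
    obtain ⟨-, -, -, -, h5⟩ := h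
    obtain ⟨-, -, g3, g4, -⟩ := qlb_ext h5
    have k3 := fl_same g3 i0
    have k4 := fl_same g4 i0
    unfold pco at k3 k4
    rw [if_pos rfl, if_pos rfl] at k3 k4
    have d1 : |F.x1 w u.1 i0 - F.x1 w u'.1 i0| ≤ 2 ^ δ / 2 ^ (q + w + δ) := by
      refine k3.trans (le_of_eq ?_)
      rw [pow_add 2 (q + w) δ]
      field_simp
    have d2 : |F.d u.1 i0 - F.d u'.1 i0| ≤ 2 ^ δ / 2 ^ (q + δ) := by
      refine k4.trans (le_of_eq ?_)
      rw [pow_add 2 q δ]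
      field_simp
    have f1 := floor_close d1
    have f2 := floor_close d2
    fin_cases k
    · exact f1
    · exact f2

/-! ### The information of a finer context -/

/-- The information grows by the entropy of the finer context. -/
theorem nfo_step (F : Fam m J) {S T : Type} {w v : ℕ} (b : F.Ω → S) (B : F.Ω → T)
    (hb : Det F.p (slam F w) b) (hbZ : Det F.p b F.Z) (hBT : Det F.p B (F.T1 v)) :
    nfo F w b + CH F.p B (fun ω => (F.T1 v ω, b ω)) ≤ nfo F v B + CH F.p b B := by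
  have hp0 := F.isLaw.nonneg
  have h1 := CH_chain hp0 b B F.Z
  have h2 := CH_chain hp0 B b F.Z
  have h3 : CH F.p (fun ω => (b ω, B ω)) F.Z = CH F.p (fun ω => (B ω, b ω)) F.Z := by
    refine CH_congr hp0 ?_ ?_ (fun _ _ _ _ h => h) (fun _ _ _ _ h => h) <;>
    · intro ω ω' _ _ h
      simp only [Prod.mk.injEq] at h ⊢
      tauto
  have h4 : CH F.p b (fun ω => (B ω, F.Z ω)) ≤ CH F.p b B :=
    CH_mono_cond hp0 fun ω ω' _ _ h => (Prod.ext_iff.mp h).1
  have h5 : CH F.p B (fun ω => (b ω, F.Z ω)) =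
      CH F.p (F.T1 v) (fun ω => (b ω, F.Z ω)) +
      CH F.p B (fun ω => (F.T1 v ω, (b ω, F.Z ω))) := by
    rw [← CH_chain hp0]
    refine CH_congr hp0 ?_ ?_ (fun _ _ _ _ h => h) (fun _ _ _ _ h => h)
    · intro ω ω' hω hω' h
      have h1 : B ω = B ω' := (Prod.ext_iff.mp h).1
      exact Prod.ext h1 (hBT ω ω' hω hω' h1)
    · intro ω ω' _ _ h
      exact (Prod.ext_iff.mp (Prod.ext_iff.mp h).1).1
  have h6 : CH F.p B (fun ω => (F.T1 v ω, b ω)) ≤
      CH F.p B (fun ω => (F.T1 v ω, (b ω, F.Z ω))) := by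
    refine CH_mono_cond hp0 fun ω ω' hω hω' h => ?_
    simp only [Prod.mk.injEq] at h ⊢
    exact ⟨h.1, h.2, hbZ ω ω' hω hω' h.2⟩
  have h7 : CH F.p (F.T1 v) (slam F w) ≤ CH F.p (F.T1 v) (fun ω => (b ω, F.Z ω)) := by
    refine CH_mono_cond hp0 fun ω ω' hω hω' h => ?_
    have h1 := hb ω ω' hω hω' h
    exact Prod.ext h1 (hbZ ω ω' hω hω' h1)
  have h8 := CH_le_add hp0 (F.T1 v) (F.T1 w) (fun ω => (F.l ω, F.Z ω))
  have h9 : CH F.p (F.T1 v) (fun ω => (F.T1 w ω, (F.l ω, F.Z ω))) ≤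
      CH F.p (F.T1 v) (slam F w) := by
    refine CH_mono_cond hp0 fun ω ω' _ _ h => ?_
    unfold slam
    simp only [Prod.mk.injEq] at h ⊢
    tauto
  unfold nfo
  linarith

/-- The digits of the time. -/
theorem CH_T1w (F : Fam m J) {S : Type} {w v : ℕ} (hwv : w ≤ v) (hv : v ≤ J) (b : F.Ω → S)
    (hbT : Det F.p b (F.T1 w)) :
    CH F.p (F.T1 v) b ≤ ((v : ℝ) - w) * Real.log 2 := by
  have hp := F.isLaw
  have hp0 := hp.nonneg
  obtain ⟨y, rfl⟩ := Nat.exists_eq_add_of_le hwv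
  have h1 : CH F.p (F.T1 (w + y)) b ≤ CH F.p (F.T1 (w + y)) (F.T1 w) := CH_mono_cond hp0 hbT
  have h2 := CH_le_card hp0 hp.sum_one (F.T1 (w + y)) (F.T1 w)
    (fun t => Finset.Ico (t * 2 ^ y) (t * 2 ^ y + 2 ^ y)) (fun ω _ => by
      rw [Finset.mem_Ico, ← T1_div F hv ω]
      refine ⟨Nat.div_mul_le_self _ _, ?_⟩
      exact Nat.lt_div_mul_add (by positivity))
  rw [show (fun ω => Real.log ((Finset.Ico (F.T1 w ω * 2 ^ y) (F.T1 w ω * 2 ^ y + 2 ^ y)).card : ℝ)) =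
    fun _ => (y : ℝ) * Real.log 2 from by
      funext ω
      rw [Nat.card_Ico, Nat.add_sub_cancel_left]
      push_cast
      rw [Real.log_pow], Ex_const hp.sum_one] at h2
  push_cast
  linarith

/-- The conditions of the chain of rows. -/
noncomputable def cxt (F : Fam m J) {S T : Type} (q : ℕ) (i0 : Fin m) (B : F.Ω → T) (b : F.Ω → S)
    (v : ℕ) (ω : F.Ω) : (T × S) × (ℕ × ℤ) :=
  ((B ω, b ω), (F.T1 v ω, bps F v (q + v) i0 ω))

/-- **LEMMA X**, one family. -/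
theorem lx_fam (m : ℕ) (C₀ : ℝ) (hC₀ : 0 ≤ C₀) : ∃ C : ℝ, 0 ≤ C ∧ ∀ (J : ℕ) (F : Fam m J)
    (i0 : Fin m) (w y q X n l l' x : ℕ) (z z' : F.Ω → Fin m → ℝ) (p₁ : ℝ),
    w + y + n * X ≤ J → w + y + n * X ≤ w + (l' - (l + x)) → l + x ≤ l' →
    (∀ ω j, ∃ k : ℤ, z ω j = k / 2 ^ l) → (∀ ω, z ω i0 = 0) → Det F.p (slam F w) z →
    (∀ ω, 0 < F.p ω → ∀ j, j ≠ i0 → |z ω j - z' ω j| ≤ C₀ / 2 ^ l) →
    Pe (dbl F.p (slam F w)) (fun u => ∀ j, j ≠ i0 →
      |z' u.1 j - z' u.2 j| ≤ 1 / 2 ^ (l + x)) ≤ p₁ →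
    nfo F w (F.qlb w q l i0 z) +
      ∑ i ∈ Finset.range n, CH F.p (bps F (w + y + (i + 1) * X) (q + (w + y + (i + 1) * X)) i0)
        (fun ω => (F.T1 (w + y + (i + 1) * X) ω,
          cxt F q i0 (F.qlb (w + y) q l' i0 z') (F.qlb w q l i0 z) (w + y + i * X) ω)) ≤
      nfo F (w + y) (F.qlb (w + y) q l' i0 z') + 2 * (y * Real.log 2) +
        2 * (p₁ * ((l' - l : ℝ) * Real.log 2)) + C * (1 + p₁ + n) := by
  have hc0 : 0 ≤ Real.log 2 := Real.log_nonneg (by norm_num)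
  have hc1 : 0 ≤ Real.log (2 * (2 * C₀) + 1) := Real.log_nonneg (by linarith)
  have hc2 : 0 ≤ Real.log (2 * (2 * (1 + C₀) + 1) + 1) := Real.log_nonneg (by linarith)
  have hc3 : 0 ≤ Real.log 11 := Real.log_nonneg (by norm_num)
  have hc4 : 0 ≤ Real.log 5 := Real.log_nonneg (by norm_num)
  have hc5 : 0 ≤ Real.log 7 := Real.log_nonneg (by norm_num)
  obtain ⟨C, hC⟩ : ∃ C : ℝ, C = (m * Real.log (2 * (2 * C₀) + 1) +
    2 * (m * Real.log (2 * (2 * (1 + C₀) + 1) + 1))) + Real.log 2 + 2 * Real.log 11 +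
    2 * Real.log 5 + 2 * Real.log 7 := ⟨_, rfl⟩
  have hm : (0 : ℝ) ≤ m := Nat.cast_nonneg m
  have hC0 : 0 ≤ C := by rw [hC]; positivity
  refine ⟨C, hC0, ?_⟩
  intro J F i0 w y q X n l l' x z z' p₁ hnJ hnδ hlx hgr hz0 hzd hcl hp1
  have hp := F.isLaw
  have hp0 := hp.nonneg
  have hyJ : w + y ≤ J := by omega
  have hll : l ≤ l' := by omega
  obtain ⟨δ, hδ⟩ : ∃ δ, δ = l' - (l + x) := ⟨_, rfl⟩
  obtain ⟨b, hb⟩ : ∃ b, b = F.qlb w q l i0 z := ⟨_, rfl⟩
  obtain ⟨B, hB⟩ : ∃ B, B = F.qlb (w + y) q l' i0 z' := ⟨_, rfl⟩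
  obtain ⟨L, hL⟩ : ∃ L, L = lin F w (q + w + δ) (q + δ) i0 := ⟨_, rfl⟩
  have bext : ∀ ω ω', b ω = b ω' → F.T1 w ω = F.T1 w ω' ∧ z ω = z ω' ∧
      rws F w (q + w) l i0 z ω = rws F w (q + w) l i0 z ω' ∧
      rvs F q l i0 z ω = rvs F q l i0 z ω' ∧ F.Z ω = F.Z ω' := by
    intro ω ω' h
    rw [hb] at h
    exact qlb_ext h
  have Bext : ∀ ω ω', B ω = B ω' → F.T1 (w + y) ω = F.T1 (w + y) ω' ∧ z' ω = z' ω' ∧
      rws F (w + y) (q + (w + y)) l' i0 z' ω = rws F (w + y) (q + (w + y)) l' i0 z' ω' ∧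
      rvs F q l' i0 z' ω = rvs F q l' i0 z' ω' ∧ F.Z ω = F.Z ω' := by
    intro ω ω' h
    rw [hB] at h
    exact qlb_ext h
  -- the contexts
  have hbd : Det F.p (slam F w) b := by
    intro ω ω' hω hω' h
    have hz := hzd ω ω' hω hω' h
    unfold slam at h
    simp only [Prod.mk.injEq] at h
    obtain ⟨h1, h2, h3⟩ := h
    have hu : F.u ω = F.u ω' := (Prod.ext_iff.mp h1).1
    have hd : F.d ω = F.d ω' := (Prod.ext_iff.mp h1).2
    have hx : F.x1 w ω = F.x1 w ω' := by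
      funext i
      unfold Fam.x1
      rw [hu, hd, h3]
    rw [hb]
    refine qlb_mk h3 hz ?_ ?_ h2
    · unfold rws
      rw [hz, hx]
    · unfold rvs
      rw [hz, hd]
  have k1 := nfo_step F (w := w) (v := w + y) b B hbd
    (fun ω ω' _ _ h => (bext ω ω' h).2.2.2.2) (fun ω ω' _ _ h => (Bext ω ω' h).1)
  have k2 : CH F.p b B ≤ m * Real.log (2 * (2 * C₀) + 1) +
      2 * (m * Real.log (2 * (2 * (1 + C₀) + 1) + 1)) := by
    rw [hb, hB]
    exact nest hp hC₀ (Nat.le_add_right w y) hyJ hll hgr hz0 hcl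
  have k3 := two_tubes (F := F) hp (i0 := i0) (q := q) (z := z) (Nat.le_add_right w y) hyJ hlx hp1
  rw [← hδ, ← hL, ← hb, ← hB] at k3
  have k4 := two_planks hp0 (slam F w) b B (F.T1 (w + y)) L hbd k3
  have k5 := CH_T1w F (Nat.le_add_right w y) hyJ b (fun ω ω' _ _ h => (bext ω ω' h).1)
  -- the rows
  obtain ⟨v, hv⟩ : ∃ v : ℕ → ℕ, v = fun i => w + y + i * X := ⟨_, rfl⟩
  have vle : ∀ i, i ≤ n → v i ≤ J ∧ v i ≤ w + δ := by
    intro i hi
    have h1 : i * X ≤ n * X := Nat.mul_le_mul_right X hi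
    rw [hv, hδ]
    constructor
    · show w + y + i * X ≤ J
      omega
    · show w + y + i * X ≤ w + (l' - (l + x))
      omega
  have vs : ∀ i, v i ≤ v (i + 1) := by
    intro i
    rw [hv]
    show w + y + i * X ≤ w + y + (i + 1) * X
    rw [Nat.add_mul]
    omega
  have vw : ∀ i, w ≤ v i := by
    intro i
    rw [hv]
    show w ≤ w + y + i * X
    omega
  have k6 := pay hp0 n L (fun i => cxt F q i0 B b (v i)) (fun i => F.T1 (v (i + 1)))
    (fun i => bps F (v (i + 1)) (q + v (i + 1)) i0) (e := Real.log 7) (e' := Real.log 7) ?_ ?_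
  · have k7 : CH F.p L (cxt F q i0 B b (v 0)) ≤
        CH F.p L (fun ω => (B ω, (F.T1 (w + y) ω, b ω))) := by
      refine CH_mono_cond hp0 fun ω ω' _ _ h => ?_
      unfold cxt at h
      simp only [Prod.mk.injEq] at h ⊢
      exact ⟨h.1.1, (Bext ω ω' h.1.1).1, h.1.2⟩
    have k8 := CH_nonneg hp0 L (cxt F q i0 B b (v n))
    have hp10 : 0 ≤ p₁ := by
      refine le_trans ?_ hp1
      have mf : Marg (dbl F.p (slam F w)) F.p (fun u => u.1) := dbl_fst hp0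
      exact Pe_nonneg ⟨dbl_nonneg hp0, by rw [mf.sum]; exact hp.sum_one⟩ _
    have hn0 : (0 : ℝ) ≤ n := Nat.cast_nonneg n
    have e1 : C * (1 + p₁ + n) = C + p₁ * C + n * C := by ring
    have e2 : p₁ * (2 * Real.log 5) ≤ p₁ * C := by
      refine mul_le_mul_of_nonneg_left ?_ hp10
      have : 0 ≤ (m : ℝ) * Real.log (2 * (2 * C₀) + 1) + 2 * (m * Real.log (2 *
        (2 * (1 + C₀) + 1) + 1)) := by positivity
      rw [hC]
      linarith
    have e3 : (n : ℝ) * (Real.log 7 + Real.log 7) ≤ n * C := by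
      refine mul_le_mul_of_nonneg_left ?_ hn0
      have : 0 ≤ (m : ℝ) * Real.log (2 * (2 * C₀) + 1) + 2 * (m * Real.log (2 *
        (2 * (1 + C₀) + 1) + 1)) := by positivity
      rw [hC]
      linarith
    have e4 : (((w + y : ℕ) : ℝ) - w) * Real.log 2 = y * Real.log 2 := by
      push_cast
      ring
    rw [e4] at k5
    have e5 : 2 * (Real.log 11 + p₁ * ((l' - l : ℝ) * Real.log 2 + Real.log 5)) =
      2 * Real.log 11 + 2 * (p₁ * ((l' - l : ℝ) * Real.log 2)) + p₁ * (2 * Real.log 5) := by ring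
    rw [e5] at k4
    rw [hv] at k6 k7 k8
    rw [← hb, ← hB]
    rw [e1]
    simp only [Nat.zero_mul] at k6 k7 k8
    have e6 : m * Real.log (2 * (2 * C₀) + 1) +
      2 * (m * Real.log (2 * (2 * (1 + C₀) + 1) + 1)) + Real.log 2 + 2 * Real.log 11 ≤ C := by
      rw [hC]
      linarith
    linarith
  · -- the next context determines the row and the context
    intro i hi
    have h1 : CH F.p (fun ω => (bps F (v (i + 1)) (q + v (i + 1)) i0 ω,
        (F.T1 (v (i + 1)) ω, cxt F q i0 B b (v i) ω))) (cxt F q i0 B b (v (i + 1))) ≤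
        CH F.p (bps F (v i) (q + v i) i0) (cxt F q i0 B b (v (i + 1))) := by
      refine CH_mono_left hp0 fun ω ω' _ _ h => ?_
      unfold cxt at h ⊢
      simp only [Prod.mk.injEq] at h ⊢
      obtain ⟨h1, ⟨h2, h3⟩, h4, h5⟩ := h
      exact ⟨h5, h4, ⟨h2, h3⟩, T1_of_le F (vs i) (vle (i + 1) hi).1 h4, h1⟩
    refine h1.trans ?_
    have h2 := CH_bd1 hp (bps F (v i) (q + v i) i0) (cxt F q i0 B b (v (i + 1))) 3 ?_
    · refine h2.trans (le_of_eq ?_)
      norm_num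
    intro ω ω' _ _ h
    unfold cxt at h
    simp only [Prod.mk.injEq] at h
    obtain ⟨⟨h2, h3⟩, h4, h5⟩ := h
    obtain ⟨s, s0, s1, e, e'⟩ := shift_two F (vs i) (vle (i + 1) hi).1 h4
    obtain ⟨-, -, -, g4, -⟩ := Bext ω ω' h2
    have g4' := fl_same g4 i0
    unfold pco at g4'
    rw [if_pos rfl, if_pos rfl] at g4'
    have g5 := floor_same h5
    rw [congrFun e i0, congrFun e' i0] at g5
    have g6 : |F.x1 (v i) ω i0 - F.x1 (v i) ω' i0| ≤ 2 / 2 ^ (q + v i) := by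
      have e1 : F.x1 (v i) ω i0 - F.x1 (v i) ω' i0 =
        (F.x1 (v i) ω i0 + s * F.d ω i0 - (F.x1 (v i) ω' i0 + s * F.d ω' i0)) -
        s * (F.d ω i0 - F.d ω' i0) := by ring
      rw [e1]
      refine (abs_sub _ _).trans ?_
      rw [abs_mul, abs_of_nonneg s0]
      have f1 : s * |F.d ω i0 - F.d ω' i0| ≤ 1 / 2 ^ (v i) * (1 / 2 ^ q) :=
        mul_le_mul s1 g4' (abs_nonneg _) (by positivity)
      have f2 : (1 : ℝ) / 2 ^ (v i) * (1 / 2 ^ q) = 1 / 2 ^ (q + v i) := by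
        rw [pow_add 2 q (v i)]
        field_simp
      have f3 : (1 : ℝ) / 2 ^ (q + v (i + 1)) ≤ 1 / 2 ^ (q + v i) :=
        one_div_le_one_div_of_le (by positivity)
          (pow_le_pow_right₀ (by norm_num) (Nat.add_le_add_left (vs i) q))
      have f4 : 2 / (2 : ℝ) ^ (q + v i) = 1 / 2 ^ (q + v i) + 1 / 2 ^ (q + v i) := by ring
      rw [f4]
      linarith
    refine (floor_close g6).trans ?_
    norm_num
  · -- the line determines the row
    intro i hi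
    have h2 := CH_bd1 hp (bps F (v (i + 1)) (q + v (i + 1)) i0)
      (fun ω => (L ω, (F.T1 (v (i + 1)) ω, cxt F q i0 B b (v i) ω))) 3 ?_
    · refine h2.trans (le_of_eq ?_)
      norm_num
    intro ω ω' _ _ h
    simp only [Prod.mk.injEq] at h
    obtain ⟨h1, h2, -⟩ := h
    obtain ⟨s, s0, s1, e, e'⟩ := shift_two F (vw (i + 1)) (vle (i + 1) hi).1 h2
    rw [hL] at h1
    have g0 := congrFun h1 0
    have g1 := congrFun h1 1
    unfold lin at g0 g1
    simp only [Matrix.cons_val_zero, Matrix.cons_val_one] at g0 g1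
    have g0' := floor_same g0
    have g1' := floor_same g1
    have hvd := (vle (i + 1) hi).2
    have g6 : |F.x1 (v (i + 1)) ω i0 - F.x1 (v (i + 1)) ω' i0| ≤ 2 / 2 ^ (q + v (i + 1)) := by
      rw [congrFun e i0, congrFun e' i0]
      have e1 : F.x1 w ω i0 + s * F.d ω i0 - (F.x1 w ω' i0 + s * F.d ω' i0) =
        (F.x1 w ω i0 - F.x1 w ω' i0) + s * (F.d ω i0 - F.d ω' i0) := by ring
      rw [e1]
      refine (abs_add_le _ _).trans ?_
      rw [abs_mul, abs_of_nonneg s0]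
      have f1 : s * |F.d ω i0 - F.d ω' i0| ≤ 1 / 2 ^ w * (1 / 2 ^ (q + δ)) :=
        mul_le_mul s1 g1' (abs_nonneg _) (by positivity)
      have f2 : (1 : ℝ) / 2 ^ w * (1 / 2 ^ (q + δ)) = 1 / 2 ^ (q + w + δ) := by
        rw [pow_add 2 (q + w) δ, pow_add 2 q w, pow_add 2 q δ]
        field_simp
      have f3 : (1 : ℝ) / 2 ^ (q + w + δ) ≤ 1 / 2 ^ (q + v (i + 1)) :=
        one_div_le_one_div_of_le (by positivity)
          (pow_le_pow_right₀ (by norm_num) (by omega))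
      have f4 : 2 / (2 : ℝ) ^ (q + v (i + 1)) =
        1 / 2 ^ (q + v (i + 1)) + 1 / 2 ^ (q + v (i + 1)) := by ring
      rw [f4]
      linarith
    refine (floor_close g6).trans ?_
    norm_num

end Pool.PC
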