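import Pool.Agent.H81.PC.LxT
import Pool.Agent.H70.PC.NestT

/-!
# LEMMA X of PLAN C for the contexts `F.ctt`
-/

set_option autoImplicit false

namespace Pool.PC

open Finset Real
open Pool.Agent.H49.Ent Pool.Agent.H32.Dense Pool.STK Pool.KA Pool.KSAT Pool.K2S

variable {m J : ℕ}

theorem rvs_iff {F : Fam m J} {q l : ℕ} {i0 : Fin m} {z : F.Ω → Fin m → ℝ} (ω ω' : F.Ω) :
    rvs F q l i0 z ω = rvs F q l i0 z ω' ↔ (⌊(2 : ℝ) ^ q * F.d ω i0⌋ = ⌊(2 : ℝ) ^ q * F.d ω' i0⌋ ∧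
      ∀ j, j ≠ i0 → ⌊(2 : ℝ) ^ (q + l) * (F.d ω j - z ω j * F.d ω i0)⌋ =
        ⌊(2 : ℝ) ^ (q + l) * (F.d ω' j - z ω' j * F.d ω' i0)⌋) := by
  have e0 : ∀ o : F.Ω, rvs F q l i0 z o i0 = ⌊(2 : ℝ) ^ q * F.d o i0⌋ := by
    intro o
    show ⌊(2 : ℝ) ^ q * pco l i0 (z o) (F.d o) i0⌋ = _
    unfold pco
    rw [if_pos rfl]
  have e1 : ∀ (o : F.Ω) (j : Fin m), j ≠ i0 → rvs F q l i0 z o j =
      ⌊(2 : ℝ) ^ (q + l) * (F.d o j - z o j * F.d o i0)⌋ := by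
    intro o j hj
    show ⌊(2 : ℝ) ^ q * pco l i0 (z o) (F.d o) j⌋ = _
    unfold pco
    rw [if_neg hj, pow_add]
    congr 1
    ring
  constructor
  · intro h
    refine ⟨?_, fun j hj => ?_⟩
    · rw [← e0, ← e0, h]
    · rw [← e1 ω j hj, ← e1 ω' j hj, h]
  · rintro ⟨h1, h2⟩
    funext j
    by_cases hj : j = i0
    · subst hj
      rw [e0, e0, h1]
    · rw [e1 ω j hj, e1 ω' j hj, h2 j hj]

/-- The contexts `F.ctt` are truncated labels. -/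
theorem ctt_iff {F : Fam m J} {w q l : ℕ} {i0 : Fin m} {z : F.Ω → Fin m → ℝ}
    (hz0 : ∀ ω, z ω i0 = 0) (hq : q + w ≤ J) (ω ω' : F.Ω) :
    F.ctt w q l i0 z ω = F.ctt w q l i0 z ω' ↔
      tlb F w q l (min (q + l + w) J) i0 z ω = tlb F w q l (min (q + l + w) J) i0 z ω' := by
  have q0 : qcv q l i0 i0 = q := by
    unfold qcv
    rw [if_pos rfl]
  have q1 : ∀ j, j ≠ i0 → qcv q l i0 j = q + l := by
    intro j hj
    unfold qcv
    rw [if_neg hj]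
  have p0 : min (qcv q l i0 i0 + w) J = q + w := by
    rw [q0]
    exact min_eq_left hq
  have a0 : ∀ o : F.Ω, F.mps w (fun i => min (qcv q l i0 i + w) J) (fun ω => zfr i0 (z ω)) o i0 =
      ⌊(2 : ℝ) ^ (q + w) * F.x1 w o i0⌋ := by
    intro o
    show ⌊(2 : ℝ) ^ (min (qcv q l i0 i0 + w) J) * mco (zfr i0 (z o)) (F.x1 w o) i0⌋ = _
    rw [p0, zfr_i0]
  have a1 : ∀ (o : F.Ω) (j : Fin m), j ≠ i0 →
      F.mps w (fun i => min (qcv q l i0 i + w) J) (fun ω => zfr i0 (z ω)) o j =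
      ⌊(2 : ℝ) ^ (min (q + l + w) J) * (F.x1 w o j - z o j * F.x1 w o i0)⌋ := by
    intro o j hj
    show ⌊(2 : ℝ) ^ (min (qcv q l i0 j + w) J) * mco (zfr i0 (z o)) (F.x1 w o) j⌋ = _
    rw [q1 j hj, zfr_ne hj]
  have b0 : ∀ o : F.Ω, F.mvl (qcv q l i0) (fun ω => zfr i0 (z ω)) o i0 =
      ⌊(2 : ℝ) ^ q * F.d o i0⌋ := by
    intro o
    show ⌊(2 : ℝ) ^ (qcv q l i0 i0) * mco (zfr i0 (z o)) (F.d o) i0⌋ = _
    rw [q0, zfr_i0]
  have b1 : ∀ (o : F.Ω) (j : Fin m), j ≠ i0 → F.mvl (qcv q l i0) (fun ω => zfr i0 (z ω)) o j =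
      ⌊(2 : ℝ) ^ (q + l) * (F.d o j - z o j * F.d o i0)⌋ := by
    intro o j hj
    show ⌊(2 : ℝ) ^ (qcv q l i0 j) * mco (zfr i0 (z o)) (F.d o) j⌋ = _
    rw [q1 j hj, zfr_ne hj]
  have c0 : ∀ o : F.Ω, pps F w (q + w) (min (q + l + w) J) i0 z o i0 =
      ⌊(2 : ℝ) ^ (q + w) * F.x1 w o i0⌋ := by
    intro o
    unfold pps
    rw [if_pos rfl]
  have c1 : ∀ (o : F.Ω) (j : Fin m), j ≠ i0 → pps F w (q + w) (min (q + l + w) J) i0 z o j =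
      ⌊(2 : ℝ) ^ (min (q + l + w) J) * (F.x1 w o j - z o j * F.x1 w o i0)⌋ := by
    intro o j hj
    unfold pps
    rw [if_neg hj]
  constructor
  · intro h
    obtain ⟨h1, h2, h3, h4, h5⟩ := Box.mlb_ext (show F.mlb w (fun i => min (qcv q l i0 i + w) J)
      (qcv q l i0) (fun ω => zfr i0 (z ω)) ω = F.mlb w (fun i => min (qcv q l i0 i + w) J)
      (qcv q l i0) (fun ω => zfr i0 (z ω)) ω' from h)
    have hz : z ω = z ω' := by
      funext j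
      by_cases hj : j = i0
      · subst hj
        rw [hz0, hz0]
      · exact zfr_eq h2 hj
    refine tlb_mk h1 hz ?_ ?_ h5
    · funext j
      by_cases hj : j = i0
      · subst hj
        rw [c0, c0, ← a0, ← a0, h3]
      · rw [c1 ω j hj, c1 ω' j hj, ← a1 ω j hj, ← a1 ω' j hj, h3]
    · rw [rvs_iff]
      refine ⟨?_, fun j hj => ?_⟩
      · rw [← b0, ← b0, h4]
      · rw [← b1 ω j hj, ← b1 ω' j hj, h4]
  · intro h
    obtain ⟨h1, h2, h3, h4, h5⟩ := tlb_ext h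
    rw [rvs_iff] at h4
    refine Box.mlb_mk (M := fun ω => zfr i0 (z ω)) h1 ?_ ?_ ?_ h5
    · show zfr i0 (z ω) = zfr i0 (z ω')
      rw [h2]
    · funext j
      by_cases hj : j = i0
      · subst hj
        rw [a0, a0, ← c0, ← c0, h3]
      · rw [a1 ω j hj, a1 ω' j hj, ← c1 ω j hj, ← c1 ω' j hj, h3]
    · funext j
      by_cases hj : j = i0
      · subst hj
        rw [b0, b0, h4.1]
      · rw [b1 ω j hj, b1 ω' j hj, h4.2 j hj]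

/-- **LEMMA X**, one family, for the contexts `F.ctt`. -/
theorem lx_ctt (m : ℕ) (C₀ : ℝ) (hC₀ : 0 ≤ C₀) : ∃ C : ℝ, 0 ≤ C ∧ ∀ (J : ℕ) (F : Fam m J)
    (i0 : Fin m) (w y q X n l l' x δ : ℕ) (z z' : F.Ω → Fin m → ℝ) (p₁ : ℝ),
    y + n * X ≤ δ → l + x + δ ≤ l' → q + w + l + x + δ ≤ J →
    (∀ ω j, ∃ k : ℤ, z ω j = k / 2 ^ l) → (∀ ω, z ω i0 = 0) → (∀ ω, z' ω i0 = 0) →
    Det F.p (slam F w) z →
    (∀ ω, 0 < F.p ω → ∀ j, j ≠ i0 → |z ω j - z' ω j| ≤ C₀ / 2 ^ l) →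
    Pe (dbl F.p (slam F w)) (fun u => ∀ j, j ≠ i0 →
      |z' u.1 j - z' u.2 j| ≤ 1 / 2 ^ (l + x)) ≤ p₁ →
    nfo F w (F.ctt w q l i0 z) +
      ∑ i ∈ Finset.range n, CH F.p (bps F (w + y + (i + 1) * X) (q + (w + y + (i + 1) * X)) i0)
        (fun ω => (F.T1 (w + y + (i + 1) * X) ω,
          cxt F q i0 (F.ctt (w + y) q l' i0 z') (F.ctt w q l i0 z) (w + y + i * X) ω)) ≤
      nfo F (w + y) (F.ctt (w + y) q l' i0 z') + 2 * (y * Real.log 2) +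
        2 * (p₁ * (δ * Real.log 2)) + C * (1 + p₁ + n) := by
  obtain ⟨C, hC, key⟩ := lx_top m C₀ hC₀
  refine ⟨C, hC, ?_⟩
  intro J F i0 w y q X n l l' x δ z z' p₁ h1 h2 h3 hgr hz0 hz0' hzd hcl hp1
  have hp0 := F.isLaw.nonneg
  have hqw : q + w ≤ J := by omega
  have hqv : q + (w + y) ≤ J := by omega
  have hP : min (q + l + w) J ≤ q + w + l := (min_le_left _ _).trans (by omega)
  have hPP : min (q + l + w) J ≤ min (q + l' + (w + y)) J :=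
    min_le_min (by omega) le_rfl
  have hPx : q + w + (l + x) + δ ≤ min (q + l' + (w + y)) J := le_min (by omega) (by omega)
  have k := key J F i0 w y q X n l l' (min (q + l + w) J) (min (q + l' + (w + y)) J) x δ z z' p₁
    (by omega) h1 h2 hPx hP hPP hgr hz0 hzd hcl hp1
  have e1 : nfo F w (F.ctt w q l i0 z) = nfo F w (tlb F w q l (min (q + l + w) J) i0 z) := by
    unfold nfo
    congr 1
    refine CH_congr hp0 ?_ ?_ (fun _ _ _ _ h => h) (fun _ _ _ _ h => h)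
    · intro ω ω' _ _ h
      exact (ctt_iff hz0 hqw ω ω').1 (Prod.ext_iff.mp h).1
    · intro ω ω' _ _ h
      exact (ctt_iff hz0 hqw ω ω').2 (Prod.ext_iff.mp h).1
  have e2 : nfo F (w + y) (F.ctt (w + y) q l' i0 z') =
      nfo F (w + y) (tlb F (w + y) q l' (min (q + l' + (w + y)) J) i0 z') := by
    unfold nfo
    congr 1
    refine CH_congr hp0 ?_ ?_ (fun _ _ _ _ h => h) (fun _ _ _ _ h => h)
    · intro ω ω' _ _ h
      exact (ctt_iff hz0' hqv ω ω').1 (Prod.ext_iff.mp h).1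
    · intro ω ω' _ _ h
      exact (ctt_iff hz0' hqv ω ω').2 (Prod.ext_iff.mp h).1
  rw [e1, e2]
  refine le_trans (le_of_eq ?_) k
  congr 1
  refine Finset.sum_congr rfl fun i _ => ?_
  refine CH_congr hp0 ?_ ?_ ?_ ?_
  · intro ω ω' _ _ h
    exact (Prod.ext_iff.mp h).1
  · intro ω ω' _ _ h
    exact (Prod.ext_iff.mp h).1
  · intro ω ω' _ _ h
    unfold cxt at h ⊢
    simp only [Prod.mk.injEq] at h ⊢
    exact ⟨h.1, ⟨(ctt_iff hz0' hqv ω ω').1 h.2.1.1, (ctt_iff hz0 hqw ω ω').1 h.2.1.2⟩, h.2.2⟩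
  · intro ω ω' _ _ h
    unfold cxt at h ⊢
    simp only [Prod.mk.injEq] at h ⊢
    exact ⟨h.1, ⟨(ctt_iff hz0' hqv ω ω').2 h.2.1.1, (ctt_iff hz0 hqw ω ω').2 h.2.1.2⟩, h.2.2⟩

end Pool.PC
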